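import Mathlib.FieldTheory.RatFunc.AsPolynomial
import Mathlib.Analysis.SpecialFunctions.Complex.Log

set_option autoImplicit false

/-! # Rational functions and polynomials: definitions -/

namespace Pool.Agent.X159.TZ

open Polynomial

/-- polynomials as rational functions -/
noncomputable abbrev al : ℂ[X] →+* RatFunc ℂ := algebraMap ℂ[X] (RatFunc ℂ)

/-- `Z(s + a)` -/
noncomputable def sh (a : ℂ) : RatFunc ℂ →+* RatFunc ℂ :=
  RatFunc.liftRingHom ((algebraMap ℂ[X] (RatFunc ℂ)).comp (Polynomial.compRingHom (X + C a))) (by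
    intro p hp
    rw [Submonoid.mem_comap]
    rw [mem_nonZeroDivisors_iff_ne_zero] at hp ⊢
    intro h
    rw [RingHom.comp_apply, Polynomial.coe_compRingHom_apply] at h
    have h1 := (map_eq_zero_iff _ (RatFunc.algebraMap_injective ℂ)).1 h
    apply hp
    have h2 := congrArg (fun q : ℂ[X] => q.comp (X - C a)) h1
    simpa [Polynomial.comp_assoc] using h2)

/-- `(φ + s (s + 2) Z(s + 1)) / (s + 1) ^ 2`: the case `κ = 1` -/
noncomputable def stp (φ : ℂ) (Z : RatFunc ℂ) : RatFunc ℂ :=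
  (al (C φ) + al (X * (X + 2)) * sh 1 Z) / al ((X + 1) ^ 2)

/-- `(φ κ + s (s + κ + 1) Z(s + κ)) / ((s + 1) (s + κ))`: for `φ = 1` the topological zeta function of
`f + y_1 z_1 + ⋯ + y_κ z_κ`, if `Z` is the one of `f` -/
noncomputable def stpK (φ : ℂ) (κ : ℕ) (Z : RatFunc ℂ) : RatFunc ℂ :=
  (al (C (φ * κ)) + al (X * (X + C ((κ : ℂ) + 1))) * sh κ Z) / al ((X + 1) * (X + C (κ : ℂ)))

/-- all poles of `Z` are roots of `b` -/
def PRoots (Z : RatFunc ℂ) (b : ℂ[X]) : Prop := ∀ s₀ : ℂ, Z.denom.eval s₀ = 0 → b.eval s₀ = 0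

/-- `b Z` is a polynomial: the order of every pole of `Z` is at most its multiplicity as a root of `b` -/
def POrders (Z : RatFunc ℂ) (b : ℂ[X]) : Prop := ∃ p : ℂ[X],
  al b * Z = al p

/-- all poles of `(s + 1) Z(s)` are roots of `b(s) / (s + 1)` -/
def PRef (Z : RatFunc ℂ) (b : ℂ[X]) : Prop := ∀ c : ℂ[X], b = (X + 1) * c → ∀ s₀ : ℂ,
  (al (X + 1) * Z).denom.eval s₀ = 0 → c.eval s₀ = 0

/-- for every pole `s₀` of `Z`, `exp(2 π i s₀) = exp(2 π i r)` for a root `r` of `b` -/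
def PWeak (Z : RatFunc ℂ) (b : ℂ[X]) : Prop := ∀ s₀ : ℂ, Z.denom.eval s₀ = 0 →
  ∃ r : ℂ, b.eval r = 0 ∧
    Complex.exp (2 * Real.pi * Complex.I * s₀) = Complex.exp (2 * Real.pi * Complex.I * r)

end Pool.Agent.X159.TZ
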