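import Pool.Agent.X159.TZ.Rat

set_option autoImplicit false

/-! # Descent of the properties of the poles -/

namespace Pool.Agent.X159.TZ

open Polynomial

/-- `P` for `f + y_1 z_1 + ⋯ + y_κ z_κ` implies `P` for `f` -/
def Desc (κ : ℕ) (P : RatFunc ℂ → ℂ[X] → Prop) : Prop := ∀ (Z : RatFunc ℂ) (c : ℂ[X]),
  (∀ s : ℕ, 0 < s → Reg (s : ℂ) Z) →
  P (stpK 1 κ Z) ((X + 1) * c.comp (X + C (κ : ℂ))) → P Z ((X + 1) * c)

theorem reg_stpK {φ : ℂ} {κ : ℕ} {Z : RatFunc ℂ} {s : ℂ} (h : Reg (s - κ) (stpK φ κ Z))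
    (h1 : s ≠ κ) (h2 : s ≠ -1) : Reg s Z := by
  have h3 := reg_mul (reg_al (s - κ) ((X + 1) * (X + C (κ : ℂ)))) h
  rw [stpK_mul] at h3
  have h4 := reg_sub h3 (reg_al (s - κ) (C (φ * κ)))
  rw [add_sub_cancel_left] at h4
  have h5 : (X * (X + C ((κ : ℂ) + 1)) : ℂ[X]).eval (s - κ) ≠ 0 := by
    simp only [eval_mul, eval_add, eval_X, eval_C]
    refine mul_ne_zero (sub_ne_zero.2 h1) fun h0 => h2 ?_
    linear_combination h0
  have h6 := reg_sh' (reg_div h5 h4)
  rwa [sub_add_cancel] at h6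

theorem desc_roots {κ : ℕ} (hκ : 2 ≤ κ) : Desc κ PRoots := by
  intro Z c hZ h1 s₀ hs
  by_contra hb
  rw [eval_mul, mul_eq_zero, not_or] at hb
  obtain ⟨hb1, hb2⟩ := hb
  have hm1 : s₀ ≠ -1 := by
    rintro rfl
    apply hb1
    simp
  have hpos : ∀ m : ℕ, 0 < m → s₀ ≠ m := by
    rintro m hm rfl
    exact reg_iff.1 (hZ m hm) hs
  have h3 : Reg (s₀ - κ) (stpK 1 κ Z) := by
    rw [reg_iff]
    intro h
    have h4 := h1 _ h
    simp only [eval_mul, eval_add, eval_X, eval_one, eval_comp, eval_C, sub_add_cancel] at h4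
    refine (mul_ne_zero ?_ hb2) h4
    intro h5
    refine hpos (κ - 1) (by omega) ?_
    rw [Nat.cast_sub (by omega)]
    push_cast
    linear_combination h5
  exact reg_iff.1 (reg_stpK h3 (hpos κ (by omega)) hm1) hs

theorem desc_ref {κ : ℕ} (hκ : 1 ≤ κ) : Desc κ PRef := by
  intro Z c hZ h1 c' hc' s₀ hs
  obtain rfl : c = c' := mul_left_cancel₀ x1_ne hc'
  by_contra hb
  have h3 : Reg (s₀ - κ) (al (X + 1) * stpK 1 κ Z) := by
    rw [reg_iff]
    intro h
    have h4 := h1 _ rfl _ h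
    simp only [eval_comp, eval_add, eval_X, eval_C, sub_add_cancel] at h4
    exact hb h4
  have h11 : s₀ ≠ κ := by
    rintro rfl
    exact reg_iff.1 (reg_mul (reg_al _ _) (hZ κ (by omega))) hs
  have h5 := reg_mul (reg_al (s₀ - κ) (X + C (κ : ℂ))) h3
  rw [← mul_assoc, ← map_mul, mul_comm (X + C (κ : ℂ)), stpK_mul] at h5
  have h6 := reg_sub h5 (reg_al (s₀ - κ) (C (1 * κ)))
  rw [add_sub_cancel_left, map_mul, mul_assoc] at h6
  have h7 := reg_div (by
    rw [eval_X]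
    exact sub_ne_zero.2 h11) h6
  have h8 : al (X + C ((κ : ℂ) + 1)) * sh κ Z = sh κ (al (X + 1) * Z) := by
    rw [map_mul, sh_poly]
    congr 2
    simp only [add_comp, X_comp, one_comp, C_add, C_1]
    ring
  rw [h8] at h7
  have h9 := reg_sh' h7
  rw [sub_add_cancel] at h9
  exact reg_iff.1 h9 hs

theorem pOrders_iff {Z : RatFunc ℂ} {b : ℂ[X]} : POrders Z b ↔ Z.denom ∣ b := by
  constructor
  · rintro ⟨p, hp⟩
    by_cases hb : b = 0
    · rw [hb]
      exact dvd_zero _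
    · exact denom_dvd hb (by rw [mul_comm]; exact hp)
  · rintro ⟨r, rfl⟩
    refine ⟨r * Z.num, ?_⟩
    have := num_denom Z
    rw [map_mul, map_mul, ← this]
    ring

theorem desc_orders {κ : ℕ} (hκ : 1 ≤ κ) : Desc κ POrders := by
  rintro Z c hZ ⟨p, hp⟩
  -- after the shift
  have h20 : ∀ d : ℂ[X], al ((X + 1) * d) * stpK 1 κ Z = al p →
      al (X * (X + C ((κ : ℂ) + 1)) * d) * sh κ Z =
        al ((X + C (κ : ℂ)) * p - C (1 * (κ : ℂ)) * d) := by
    intro d hd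
    have h1 := stpK_mul 1 κ Z
    have h3 : al (X + C (κ : ℂ)) * (al ((X + 1) * d) * stpK 1 κ Z) = al (X + C (κ : ℂ)) * al p := by
      rw [hd]
    simp only [map_mul al, map_sub al] at h1 h3 ⊢
    linear_combination h3 - (al d) * h1
  have h2 := h20 _ hp
  have h3 := congrArg (sh (-κ)) h2
  rw [map_mul, sh_poly, sh_poly, sh_sh, add_neg_cancel, sh_zero] at h3
  set p' := ((X + C (κ : ℂ)) * p - C (1 * (κ : ℂ)) * c.comp (X + C (κ : ℂ))).comp
    (X + C (-(κ : ℂ))) with hp'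
  have h4 : (X * (X + C ((κ : ℂ) + 1)) * c.comp (X + C (κ : ℂ))).comp (X + C (-(κ : ℂ))) =
      (X - C (κ : ℂ)) * ((X + 1) * c) := by
    have h5 : (c.comp (X + C (κ : ℂ))).comp (X + C (-(κ : ℂ))) = c := by
      rw [comp_assoc, add_comp, X_comp, C_comp, add_assoc, ← C_add, neg_add_cancel, C_0, add_zero,
        comp_X]
    rw [mul_comp, mul_comp, h5, add_comp, X_comp, C_comp, C_neg, C_add, C_1]
    ring
  rw [h4] at h3
  -- `W = (X + 1) c Z` has at most a pole at `κ`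
  set W := al ((X + 1) * c) * Z with hW
  have h5 : W * al (X - C (κ : ℂ)) = al p' := by
    rw [← h3, hW, map_mul al (X - C (κ : ℂ))]
    ring
  have h6 : W.denom ∣ (X - C (κ : ℂ) : ℂ[X]) := denom_dvd (X_sub_C_ne_zero _) h5
  have h7 : W.denom.eval (κ : ℂ) ≠ 0 := reg_iff.1 (reg_mul (reg_al _ _) (hZ κ (by omega)))
  have h8 : W.denom = 1 := by
    obtain ⟨r, hr⟩ := h6
    rcases (Polynomial.irreducible_X_sub_C (κ : ℂ)).isUnit_or_isUnit hr with hu | hu
    · exact (RatFunc.monic_denom W).eq_one_of_isUnit hu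
    · exfalso
      have h9 := congrArg (Polynomial.eval (κ : ℂ)) hr
      rw [eval_mul, eval_sub, eval_X, eval_C, sub_self] at h9
      have h10 : r.eval (κ : ℂ) ≠ 0 := by
        obtain ⟨a, ha, rfl⟩ := Polynomial.isUnit_iff.1 hu
        rw [eval_C]
        exact ha.ne_zero
      exact (mul_ne_zero h7 h10) h9.symm
  refine ⟨W.num, ?_⟩
  have h9 := num_denom W
  rw [h8, map_one, mul_one] at h9
  exact h9

theorem exp_eq_iff (s r : ℂ) :
    Complex.exp (2 * Real.pi * Complex.I * s) = Complex.exp (2 * Real.pi * Complex.I * r) ↔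
      ∃ i : ℤ, s = r + i := by
  rw [Complex.exp_eq_exp_iff_exists_int]
  have hpi : (2 * (Real.pi : ℂ) * Complex.I) ≠ 0 := Complex.two_pi_I_ne_zero
  refine exists_congr fun i => ⟨fun h => ?_, fun h => ?_⟩
  · apply mul_left_cancel₀ hpi
    linear_combination h
  · rw [h]
    ring

theorem desc_weak (κ : ℕ) : Desc κ PWeak := by
  intro Z c hZ h1 s₀ hs
  by_cases hi : ∃ i : ℤ, s₀ = -1 + i
  · refine ⟨-1, by simp, (exp_eq_iff _ _).2 hi⟩
  by_cases h3 : Reg (s₀ - κ) (stpK 1 κ Z)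
  · exfalso
    refine reg_iff.1 (reg_stpK h3 ?_ ?_) hs
    · rintro rfl
      exact hi ⟨κ + 1, by push_cast; ring⟩
    · rintro rfl
      exact hi ⟨0, by norm_num⟩
  · rw [reg_iff, not_not] at h3
    obtain ⟨r, hr, he⟩ := h1 _ h3
    rw [exp_eq_iff] at he
    obtain ⟨i, hi'⟩ := he
    simp only [eval_mul, eval_add, eval_X, eval_one, eval_comp, eval_C] at hr
    rcases mul_eq_zero.1 hr with h4 | h4
    · exfalso
      apply hi
      refine ⟨i + κ, ?_⟩
      push_cast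
      linear_combination hi' + h4
    · refine ⟨r + κ, ?_, (exp_eq_iff _ _).2 ⟨i, by linear_combination hi'⟩⟩
      rw [eval_mul, h4, mul_zero]

end Pool.Agent.X159.TZ
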