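import Pool.Agent.X159.TZ.RDefs

set_option autoImplicit false

/-! # Rational functions: the shift, regular points -/

namespace Pool.Agent.X159.TZ

open Polynomial

theorem sh_poly (a : ℂ) (p : ℂ[X]) : sh a (al p) = al (p.comp (X + C a)) := by
  unfold sh
  rw [RatFunc.liftRingHom_algebraMap]
  rfl

theorem al_ne {p : ℂ[X]} (hp : p ≠ 0) : al p ≠ 0 := RatFunc.algebraMap_ne_zero hp

theorem al_inj {p q : ℂ[X]} (h : al p = al q) : p = q := RatFunc.algebraMap_injective ℂ h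

/-- every rational function is a fraction -/
theorem num_denom (Z : RatFunc ℂ) : Z * al Z.denom = al Z.num := by
  have h1 : al Z.denom ≠ 0 := al_ne Z.denom_ne_zero
  have h2 : al Z.num / al Z.denom = Z := RatFunc.num_div_denom Z
  rw [div_eq_iff h1] at h2
  exact h2.symm

theorem denom_dvd {Z : RatFunc ℂ} {p q : ℂ[X]} (hq : q ≠ 0) (h : Z * al q = al p) :
    Z.denom ∣ q := by
  have h1 : Z = al p / al q := by rw [eq_div_iff (al_ne hq), h]
  rw [h1]
  exact RatFunc.denom_div_dvd p q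

/-- `Z` is regular at `s` -/
def Reg (s : ℂ) (Z : RatFunc ℂ) : Prop :=
  ∃ p q : ℂ[X], q.eval s ≠ 0 ∧ Z * al q = al p

theorem ne_of_eval {q : ℂ[X]} {s : ℂ} (h : q.eval s ≠ 0) : q ≠ 0 := by
  rintro rfl
  exact h eval_zero

theorem reg_iff {s : ℂ} {Z : RatFunc ℂ} : Reg s Z ↔ Z.denom.eval s ≠ 0 := by
  constructor
  · rintro ⟨p, q, hq, h⟩ h0
    obtain ⟨r, hr⟩ := denom_dvd (ne_of_eval hq) h
    apply hq
    rw [hr, eval_mul, h0, zero_mul]
  · intro h
    exact ⟨_, _, h, num_denom Z⟩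

theorem reg_al (s : ℂ) (p : ℂ[X]) : Reg s (al p) :=
  ⟨p, 1, by rw [eval_one]; exact one_ne_zero, by rw [map_one, mul_one]⟩

theorem reg_add {s : ℂ} {Z W : RatFunc ℂ} (h : Reg s Z) (h' : Reg s W) : Reg s (Z + W) := by
  obtain ⟨p, q, hq, e⟩ := h
  obtain ⟨p', q', hq', e'⟩ := h'
  refine ⟨p * q' + p' * q, q * q', by rw [eval_mul]; exact mul_ne_zero hq hq', ?_⟩
  simp only [map_add, map_mul]
  rw [← e, ← e']
  ring

theorem reg_mul {s : ℂ} {Z W : RatFunc ℂ} (h : Reg s Z) (h' : Reg s W) : Reg s (Z * W) := by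
  obtain ⟨p, q, hq, e⟩ := h
  obtain ⟨p', q', hq', e'⟩ := h'
  refine ⟨p * p', q * q', by rw [eval_mul]; exact mul_ne_zero hq hq', ?_⟩
  simp only [map_mul]
  rw [← e, ← e']
  ring

theorem reg_sub {s : ℂ} {Z W : RatFunc ℂ} (h : Reg s Z) (h' : Reg s W) : Reg s (Z - W) := by
  have h1 := reg_add h (reg_mul (reg_al s (-1)) h')
  rw [map_neg, map_one, neg_one_mul, ← sub_eq_add_neg] at h1
  exact h1

/-- division by a polynomial which does not vanish -/
theorem reg_div {s : ℂ} {Z : RatFunc ℂ} {r : ℂ[X]} (hr : r.eval s ≠ 0) (h : Reg s (al r * Z)) :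
    Reg s Z := by
  obtain ⟨p, q, hq, e⟩ := h
  refine ⟨p, r * q, by rw [eval_mul]; exact mul_ne_zero hr hq, ?_⟩
  rw [map_mul, ← e]
  ring

theorem reg_sh {s a : ℂ} {Z : RatFunc ℂ} (h : Reg (s + a) Z) : Reg s (sh a Z) := by
  obtain ⟨p, q, hq, e⟩ := h
  refine ⟨p.comp (X + C a), q.comp (X + C a), by simpa [eval_comp] using hq, ?_⟩
  rw [← sh_poly, ← sh_poly, ← map_mul, e]

theorem sh_sh (a b : ℂ) (Z : RatFunc ℂ) : sh a (sh b Z) = sh (b + a) Z := by
  have h1 := congrArg (fun W => sh a (sh b W)) (num_denom Z)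
  have h2 := congrArg (fun W => sh (b + a) W) (num_denom Z)
  simp only [map_mul, sh_poly] at h1 h2
  have e : ∀ p : ℂ[X], (p.comp (X + C b)).comp (X + C a) = p.comp (X + C (b + a)) := by
    intro p
    rw [comp_assoc]
    congr 1
    simp only [add_comp, X_comp, C_comp, C_add]
    ring
  rw [e, e] at h1
  have h3 : al (Z.denom.comp (X + C (b + a))) ≠ 0 := by
    rw [← sh_poly]
    rw [Ne, map_eq_zero_iff _ (RingHom.injective _)]
    exact al_ne Z.denom_ne_zero
  exact mul_right_cancel₀ h3 (h1.trans h2.symm)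

theorem sh_zero (Z : RatFunc ℂ) : sh 0 Z = Z := by
  have h1 := congrArg (fun W => sh 0 W) (num_denom Z)
  simp only [map_mul, sh_poly, C_0, add_zero, comp_X] at h1
  exact mul_right_cancel₀ (al_ne Z.denom_ne_zero) (h1.trans (num_denom Z).symm)

theorem reg_sh' {s a : ℂ} {Z : RatFunc ℂ} (h : Reg s (sh a Z)) : Reg (s + a) Z := by
  have h1 : Reg (s + a) (sh (-a) (sh a Z)) := reg_sh (by rwa [add_neg_cancel_right])
  rwa [sh_sh, add_neg_cancel, sh_zero] at h1

/-- `c` is the value of `Z` at `s` -/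
def Val (s : ℂ) (Z : RatFunc ℂ) (c : ℂ) : Prop := Z.num.eval s = c * Z.denom.eval s

theorem val_reg {s : ℂ} {Z : RatFunc ℂ} {c : ℂ} (h : Val s Z c) : Z.denom.eval s ≠ 0 := by
  intro h0
  unfold Val at h
  rw [h0, mul_zero] at h
  obtain ⟨a, b, hab⟩ := RatFunc.isCoprime_num_denom Z
  have h1 := congrArg (Polynomial.eval s) hab
  rw [eval_add, eval_mul, eval_mul, h, h0, mul_zero, mul_zero, add_zero, eval_one] at h1
  exact zero_ne_one h1

theorem val_iff {s : ℂ} {Z : RatFunc ℂ} {c : ℂ} {p q : ℂ[X]} (hq : q.eval s ≠ 0)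
    (h : Z * al q = al p) : Val s Z c ↔ p.eval s = c * q.eval s := by
  have h1 : Z.num * q = p * Z.denom := by
    apply al_inj
    rw [map_mul, map_mul, ← h, ← num_denom]
    ring
  have h2 := congrArg (Polynomial.eval s) h1
  rw [eval_mul, eval_mul] at h2
  have h3 : Z.denom.eval s ≠ 0 := reg_iff.1 ⟨p, q, hq, h⟩
  unfold Val
  constructor
  · intro h4
    rw [h4] at h2
    have h5 : Z.denom.eval s * (p.eval s - c * q.eval s) = 0 := by linear_combination -h2
    exact sub_eq_zero.1 ((mul_eq_zero.1 h5).resolve_left h3)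
  · intro h4
    rw [h4] at h2
    have h5 : q.eval s * (Z.num.eval s - c * Z.denom.eval s) = 0 := by linear_combination h2
    exact sub_eq_zero.1 ((mul_eq_zero.1 h5).resolve_left hq)

/-- rational functions with the same values at `1, 2, 3, …` -/
theorem eq_of_val {Z W : RatFunc ℂ} (h : ∀ s : ℕ, 0 < s → ∃ c, Val s Z c ∧ Val s W c) :
    Z = W := by
  have h1 : Z.num * W.denom = W.num * Z.denom := by
    refine Polynomial.eq_of_infinite_eval_eq _ _ ?_
    refine Set.Infinite.mono (s := Set.range fun n : ℕ => ((n + 1 : ℕ) : ℂ)) ?_ ?_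
    · rintro _ ⟨n, rfl⟩
      obtain ⟨c, h2, h3⟩ := h (n + 1) (Nat.succ_pos n)
      unfold Val at h2 h3
      simp only [Set.mem_ofPred_eq, eval_mul]
      rw [h2, h3]
      ring
    · refine Set.infinite_range_of_injective fun a b hab => ?_
      have : ((a + 1 : ℕ) : ℂ) = ((b + 1 : ℕ) : ℂ) := hab
      have := Nat.cast_injective this
      omega
  have h2 : Z * al Z.denom * al W.denom = W * al W.denom * al Z.denom := by
    rw [num_denom, num_denom, ← map_mul, ← map_mul, h1]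
  have h3 : al Z.denom * al W.denom ≠ 0 := mul_ne_zero (al_ne Z.denom_ne_zero)
    (al_ne W.denom_ne_zero)
  apply mul_right_cancel₀ h3
  linear_combination h2

theorem x1_ne : (X + 1 : ℂ[X]) ≠ 0 := by
  have := Polynomial.X_add_C_ne_zero (1 : ℂ)
  rwa [C_1] at this

theorem stp_mul (φ : ℂ) (Z : RatFunc ℂ) :
    al ((X + 1) ^ 2) * stp φ Z = al (C φ) + al (X * (X + 2)) * sh 1 Z := by
  unfold stp
  rw [mul_div_cancel₀ _ (al_ne (pow_ne_zero 2 x1_ne))]

theorem val_stp {s : ℕ} {Z : RatFunc ℂ} {c : ℂ} (φ : ℂ) (h : Val ((s + 1 : ℕ) : ℂ) Z c) :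
    Val s (stp φ Z) ((s * (s + 2) * c + φ) / ((s : ℂ) + 1) ^ 2) := by
  have hs : ((s : ℂ) + 1) ≠ 0 := by exact_mod_cast Nat.succ_ne_zero s
  have h0 := val_reg h
  unfold Val at h
  push_cast at h h0
  have h1 : stp φ Z * al ((X + 1) ^ 2 * Z.denom.comp (X + C 1)) =
      al (C φ * Z.denom.comp (X + C 1) + X * (X + 2) * Z.num.comp (X + C 1)) := by
    have h2 := stp_mul φ Z
    have h3 := congrArg (sh 1) (num_denom Z)
    rw [map_mul, sh_poly, sh_poly] at h3
    simp only [map_add, map_mul] at h2 ⊢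
    linear_combination (al (Z.denom.comp (X + C 1))) * h2 + (al X * (al X + al 2)) * h3
  rw [val_iff ?_ h1]
  · simp only [eval_mul, eval_add, eval_comp, eval_X, eval_C, eval_pow, eval_one, eval_ofNat, h]
    field_simp
    ring
  · simp only [eval_mul, eval_add, eval_comp, eval_X, eval_C, eval_pow, eval_one]
    exact mul_ne_zero (pow_ne_zero _ hs) h0

theorem stpK_mul (φ : ℂ) (κ : ℕ) (Z : RatFunc ℂ) :
    al ((X + 1) * (X + C (κ : ℂ))) * stpK φ κ Z =
      al (C (φ * κ)) + al (X * (X + C ((κ : ℂ) + 1))) * sh κ Z := by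
  unfold stpK
  rw [mul_div_cancel₀ _ (al_ne (mul_ne_zero x1_ne (X_add_C_ne_zero _)))]

theorem stpK_zero (φ : ℂ) (Z : RatFunc ℂ) : stpK φ 0 Z = Z := by
  have h1 := stpK_mul φ 0 Z
  simp only [Nat.cast_zero, add_zero, mul_zero, map_zero, zero_add, zero_add, sh_zero,
    C_1] at h1
  have h2 : al ((X + 1) * X) ≠ 0 := al_ne (mul_ne_zero x1_ne X_ne_zero)
  apply mul_left_cancel₀ h2
  rw [h1, mul_comm (X + 1 : ℂ[X]) X]

theorem stpK_succ (φ : ℂ) (κ : ℕ) (Z : RatFunc ℂ) :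
    stp φ (stpK φ κ Z) = stpK φ (κ + 1) Z := by
  have h1 := stp_mul φ (stpK φ κ Z)
  have h2 := congrArg (sh 1) (stpK_mul φ κ Z)
  have h3 := stpK_mul φ (κ + 1) Z
  simp only [map_mul, map_add, sh_poly, sh_sh, mul_comp, add_comp, X_comp, C_comp, map_one] at h2
  have e1 : sh ((κ + 1 : ℕ) : ℂ) Z = sh ((κ : ℂ) + 1) Z := by push_cast; rfl
  rw [e1] at h3
  have hne : al ((X + 1) ^ 2 * (X + C 1 + 1) * (X + C 1 + C (κ : ℂ))) ≠ 0 := by
    apply al_ne
    refine mul_ne_zero (mul_ne_zero (pow_ne_zero _ x1_ne) ?_) ?_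
    · have := Polynomial.X_add_C_ne_zero (2 : ℂ)
      rwa [show (X + C 1 + 1 : ℂ[X]) = X + C 2 by
        rw [show (2 : ℂ) = 1 + 1 by norm_num, C_add, C_1]; ring]
    · have := Polynomial.X_add_C_ne_zero (1 + (κ : ℂ))
      rwa [add_assoc, ← C_add]
  apply mul_left_cancel₀ hne
  have e2 : al (C (((κ : ℂ) + 1) + 1)) = al (C (κ : ℂ)) + 2 := by
    rw [C_add, C_add, map_add, map_add, C_1, map_one]; ring
  simp only [map_mul, map_add, map_pow, map_one, Nat.cast_succ, C_1, C_add, map_ofNat] at h1 h2 h3 ⊢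
  set x := al X
  set k := al (C (κ : ℂ))
  set f := al (C φ)
  set S := sh ((κ : ℂ) + 1) Z
  linear_combination ((x + 1 + 1) * (x + 1 + k)) * h1 + (x * (x + 2)) * h2 -
    ((x + 1) * (x + 1 + 1)) * h3

end Pool.Agent.X159.TZ
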