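import Pool.Agent.X159.TZ.Base
import Pool.Agent.X159.TZ.Rat
import Pool.Agent.Y229.MS.Fin

set_option autoImplicit false

/-! # The relation of the motivic zeta functions of `f` and `f + y z` -/

namespace Pool.Agent.X159.TZ

open MvPolynomial Pool.Agent.W428.MOT Pool.Agent.Y229.MS Pool.Agent.TH192.MU
open Pool.Agent.W375.MG (JetG zetaG Good good_units)
open Pool.Agent.W63.MTFin (mapMeas L_mul)

section rel
variable {K : Type} [Field K] {n : ℕ} {R : Type} [CommRing R]

/-- the class of a rational point -/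
theorem chi_single (M : Meas K R) {ι : Type} [Fintype ι] (a : ι → K) :
    M.χ ι {fun i => algebraMap K (AlgebraicClosure K) (a i)} = 1 := by
  rw [← M.point (ι := Fin 0)]
  have hc : Constr ({fun i => algebraMap K (AlgebraicClosure K) (a i)} : Set (Pt K ι)) := by
    have h := Pool.Agent.W417.MT.Free.constr_eqs (K := K) (Finset.univ : Finset ι) a
    convert h using 1
    ext z
    simp only [Set.mem_singleton_iff, Set.mem_ofPred_eq, Finset.mem_univ, forall_true_left,
      funext_iff]
  refine M.iso _ _ hc Constr.univ (fun _ i => i.elim0)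
    (fun _ i => algebraMap K (AlgebraicClosure K) (a i))
    (regularOn_poly (fun i => i.elim0) _) (regularOn_poly (fun _ => IsPF.const _) _) ?_ ?_ ?_ ?_
  · intro z _
    exact Set.mem_univ _
  · intro z _
    exact Set.mem_singleton _
  · intro z hz
    exact (Set.mem_singleton_iff.1 hz).symm
  · intro w _
    funext i
    exact i.elim0

/-- the class of an affine space -/
theorem chi_univ (M : Meas K R) {ι : Type} [Fintype ι] :
    M.χ ι (Set.univ : Set (Pt K ι)) = M.L ^ Fintype.card ι := by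
  classical
  have h := Pool.Agent.W417.MT.Free.free_one M (Finset.univ : Finset ι) (fun _ => (0 : K))
    Set.univ Constr.univ (fun _ _ _ _ => Set.mem_univ _)
  rw [h, Finset.card_univ]
  have h1 : (Set.univ : Set (Pt K ι)) ∩ {z | ∀ i ∈ (Finset.univ : Finset ι),
      z i = algebraMap K (AlgebraicClosure K) 0} =
      {fun _ => algebraMap K (AlgebraicClosure K) 0} := by
    ext z
    simp only [Set.mem_inter_iff, Set.mem_univ, true_and, Finset.mem_univ, forall_true_left,
      Set.mem_singleton_iff, funext_iff, Set.mem_ofPred_eq]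
  rw [h1, chi_single, one_mul]

/-- the class of `W` -/
noncomputable def wt (M : Meas K R) (f : MvPolynomial (Fin n) K) (W : Set (Pt K (Fin n))) : R :=
  M.χ _ (Tl f W 0 0)

/-- the tails and the zeta function -/
theorem phi_units (M : Meas K R) (Y : R) (hL : M.L * Y = 1) (f : MvPolynomial (Fin n) K)
    {W : Set (Pt K (Fin n))} (hW : Constr W) :
    phiS M Y f W * (1 - PowerSeries.X) =
      PowerSeries.C (wt M f W) - PowerSeries.X * zs M Y f W {a | a ≠ 0} := by
  ext N
  rw [mul_sub, mul_one, map_sub, map_sub, PowerSeries.coeff_C]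
  rcases N with _ | N
  · rw [PowerSeries.coeff_zero_mul_X, PowerSeries.coeff_zero_X_mul, sub_zero, sub_zero, if_pos rfl,
      phiS, PowerSeries.coeff_mk, mul_zero, pow_zero, mul_one, wt]
  · rw [PowerSeries.coeff_succ_mul_X, PowerSeries.coeff_succ_X_mul, if_neg (Nat.succ_ne_zero N),
      phiS, PowerSeries.coeff_mk, PowerSeries.coeff_mk, zs, PowerSeries.coeff_mk,
      phi_succ Pool.Agent.Y812.MS.two M Y hL f W hW N]
    have hd : Disjoint (JetG f W {0} N) (JetG f W {a | a ≠ 0} N) := by
      rw [Set.disjoint_left]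
      rintro z ⟨-, -, h1⟩ ⟨-, -, h2⟩
      exact h2 h1
    have hu : Tl f W N N = JetG f W {0} N ∪ JetG f W {a | a ≠ 0} N := by
      ext z
      simp only [Tl, JetG, Set.mem_ofPred_eq, Set.mem_union, Set.mem_singleton_iff]
      tauto
    rw [hu, M.add _ _ (Pool.Agent.Y971.MS.constr_jet f hW ce_zero N)
      (Pool.Agent.Y971.MS.constr_jet f hW (ce_good good_units) N) hd]
    ring

/-- the relation for `f + y z` -/
theorem rel_units (M : Meas K R) (Y : R) (hL : M.L * Y = 1) (f : MvPolynomial (Fin n) K)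
    {W : Set (Pt K (Fin n))} (hW : Constr W) :
    (1 - PowerSeries.X) ^ 2 * PowerSeries.rescale M.L (zs M Y (addyz f) (Wyz W) {a | a ≠ 0}) =
      (PowerSeries.C M.L - PowerSeries.X) * (1 - PowerSeries.C M.L * PowerSeries.X) *
        zs M Y f W {a | a ≠ 0} + PowerSeries.C ((M.L - 1) ^ 2 * wt M f W) * PowerSeries.X ^ 0 := by
  have h1 := rel1 t1 Pool.Agent.Y812.MS.two M Y hL f hW (ce_good (K := K) good_units)
  have h2 := psum_mul (phiS M Y f W)
  have h3 := phi_units M Y hL f hW
  have h4 : M.χ (Fin 1) {a : Pt K (Fin 1) | a 0 ∈ ({c | c ≠ 0} : Set (AlgebraicClosure K))} =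
      M.L - 1 := Pool.Agent.W417.MT.Free.chi_gm M
  rw [h4] at h1
  rw [h1, pow_zero, mul_one, map_mul PowerSeries.C ((M.L - 1) ^ 2), map_pow, map_mul PowerSeries.C,
    map_sub, map_one]
  linear_combination ((PowerSeries.C M.L - 1) ^ 2 * (1 - PowerSeries.X)) * h2 +
    ((PowerSeries.C M.L - 1) ^ 2) * h3

end rel

/-! ### The realisation -/

section real
variable {K : Type} [Field K] {n : ℕ} {R : Type} [CommRing R]

theorem map_rescale {A B : Type} [CommRing A] [CommRing B] (E : A →+* B) (c : A)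
    (Z : PowerSeries A) :
    PowerSeries.map E (PowerSeries.rescale c Z) = PowerSeries.rescale (E c) (PowerSeries.map E Z) := by
  ext N
  rw [PowerSeries.coeff_map, PowerSeries.coeff_rescale, PowerSeries.coeff_rescale,
    PowerSeries.coeff_map, map_mul, map_pow]

/-- the Grothendieck measure -/
theorem exists_meas (K : Type) [Field K] [CharZero K] : ∃ M : Meas K (MK K),
    M.L = ((Lu K : (MK K)ˣ) : MK K) ∧ M.L * (((Lu K)⁻¹ : (MK K)ˣ) : MK K) = 1 ∧
    ∀ {a : ℕ} (g : MvPolynomial (Fin a) K) (V : Set (Pt K (Fin a)))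
      (E : Set (AlgebraicClosure K)),
      zetaG g V E = zs M (((Lu K)⁻¹ : (MK K)ˣ) : MK K) g V E := by
  obtain ⟨M₀, hM₀⟩ := Pool.Agent.W417.MT.K0.main K
  refine ⟨mapMeas M₀ (algebraMap (K0 K) (MK K)), ?_, L_mul hM₀, ?_⟩
  · have hL := L_mul hM₀
    set Y : MK K := (((Lu K)⁻¹ : (MK K)ˣ) : MK K) with hY
    have h2 : ((Lu K : (MK K)ˣ) : MK K) * Y = 1 := Units.mul_inv _
    calc (mapMeas M₀ (algebraMap (K0 K) (MK K))).L
        = (mapMeas M₀ (algebraMap (K0 K) (MK K))).L * (((Lu K : (MK K)ˣ) : MK K) * Y) := by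
          rw [h2, mul_one]
      _ = ((mapMeas M₀ (algebraMap (K0 K) (MK K))).L * Y) * ((Lu K : (MK K)ˣ) : MK K) := by ring
      _ = _ := by rw [hL, one_mul]
  · intro a g V E
    ext N
    rw [zetaG, zs, PowerSeries.coeff_mk, PowerSeries.coeff_mk, zpow_neg, zpow_natCast, ← inv_pow,
      Units.val_pow_eq_pow_val, ← hM₀]
    rfl

/-- **The topological zeta function of `f + y z`**, all origins. -/
theorem topZeta_step [CharZero K] [IsDomain R] {E : MK K →+* R} {ε : R →+* ℂ}
    (hε : ε (E ((Lu K : (MK K)ˣ) : MK K)) = 1) (hE : E ((Lu K : (MK K)ˣ) : MK K) ≠ 1)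
    (f : MvPolynomial (Fin n) K) :
    ∀ s : ℕ, ∀ c : ℂ,
      SpecAt (Units.map (E : MK K →* R) (Lu K)) ε
        (PowerSeries.map E (zetaG f Set.univ {a | a ≠ 0})) (s + 1) c →
      SpecAt (Units.map (E : MK K →* R) (Lu K)) ε
        (PowerSeries.map E (zetaG (addyz f) Set.univ {a | a ≠ 0})) s
        ((s * (s + 2) * c + 1) / ((s : ℂ) + 1) ^ 2) := by
  obtain ⟨M, hML, hL, hz⟩ := exists_meas K
  intro s c hc
  have h1 := congrArg (PowerSeries.map E) (rel_units M _ hL f Constr.univ)
  have hwy : Wyz (Set.univ : Set (Pt K (Fin n))) = Set.univ := by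
    ext w
    simp [Wyz]
  rw [hwy, ← hz, ← hz] at h1
  have hw : wt M f Set.univ = ((Lu K : (MK K)ˣ) : MK K) ^ n := by
    have h2 : (Tl f Set.univ 0 0 : Set (Pt K (Fin n × Fin (0 + 1)))) = Set.univ := by
      ext z
      simp only [Tl, Set.mem_ofPred_eq, Set.mem_univ, true_and, iff_true]
      intro j hj
      exact absurd hj (Nat.not_lt_zero _)
    rw [wt, h2, chi_univ, hML, Fintype.card_prod, Fintype.card_fin, Fintype.card_fin]
    simp
  rw [hw, hML] at h1
  simp only [map_mul, map_pow, map_sub, map_one, map_rescale, PowerSeries.map_X, map_add,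
    PowerSeries.map_C] at h1
  have h2 := specAt_step (u := Units.map (E : MK K →* R) (Lu K)) (ε := ε) hε hE
    (φ := E ((Lu K : (MK K)ˣ) : MK K) ^ n) (m := 0) (by
      simp only [map_mul, map_pow, map_sub, map_one]
      exact h1) hc
  rwa [map_pow, hε, one_pow] at h2

end real

end Pool.Agent.X159.TZ
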