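import Pool.Agent.X159.TZ.Rat

set_option autoImplicit false

namespace Pool.Agent.X159.TZ

/-! ### values of rational functions -/

section val
open Polynomial

theorem val_iff' {s : ℂ} {Z : RatFunc ℂ} {c : ℂ} :
    Val s Z c ↔ ∃ p q : ℂ[X], q.eval s ≠ 0 ∧ Z * al q = al p ∧ p.eval s = c * q.eval s := by
  constructor
  · intro h
    exact ⟨Z.num, Z.denom, val_reg h, num_denom Z, h⟩
  · rintro ⟨p, q, hq, h, he⟩
    exact (val_iff hq h).2 he

theorem val_add {s : ℂ} {Z W : RatFunc ℂ} {c d : ℂ} (h : Val s Z c) (h' : Val s W d) :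
    Val s (Z + W) (c + d) := by
  obtain ⟨p, q, hq, e, hv⟩ := val_iff'.1 h
  obtain ⟨p', q', hq', e', hv'⟩ := val_iff'.1 h'
  refine val_iff'.2 ⟨p * q' + p' * q, q * q', by rw [eval_mul]; exact mul_ne_zero hq hq', ?_, ?_⟩
  · simp only [map_add, map_mul]
    rw [← e, ← e']
    ring
  · simp only [eval_add, eval_mul, hv, hv']
    ring

theorem val_mul {s : ℂ} {Z W : RatFunc ℂ} {c d : ℂ} (h : Val s Z c) (h' : Val s W d) :
    Val s (Z * W) (c * d) := by
  obtain ⟨p, q, hq, e, hv⟩ := val_iff'.1 h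
  obtain ⟨p', q', hq', e', hv'⟩ := val_iff'.1 h'
  refine val_iff'.2 ⟨p * p', q * q', by rw [eval_mul]; exact mul_ne_zero hq hq', ?_, ?_⟩
  · simp only [map_mul]
    rw [← e, ← e']
    ring
  · simp only [eval_mul, hv, hv']
    ring

theorem val_al (s : ℂ) (p : ℂ[X]) : Val s (al p) (p.eval s) :=
  val_iff'.2 ⟨p, 1, by rw [eval_one]; exact one_ne_zero, by rw [map_one, mul_one],
    by rw [eval_one, mul_one]⟩

theorem val_sh {s a : ℂ} {Z : RatFunc ℂ} {c : ℂ} (h : Val (s + a) Z c) : Val s (sh a Z) c := by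
  obtain ⟨p, q, hq, e, hv⟩ := val_iff'.1 h
  refine val_iff'.2 ⟨p.comp (X + C a), q.comp (X + C a), by simpa [eval_comp] using hq, ?_, ?_⟩
  · rw [← sh_poly, ← sh_poly, ← map_mul, e]
  · simpa [eval_comp] using hv

theorem val_div {s : ℂ} {Z : RatFunc ℂ} {r : ℂ[X]} {c : ℂ} (hr : r.eval s ≠ 0)
    (h : Val s Z c) : Val s (Z / al r) (c / r.eval s) := by
  obtain ⟨p, q, hq, e, hv⟩ := val_iff'.1 h
  refine val_iff'.2 ⟨p, r * q, by rw [eval_mul]; exact mul_ne_zero hr hq, ?_, ?_⟩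
  · have hr' : al r ≠ 0 := al_ne (ne_of_eval hr)
    rw [map_mul, ← e]
    field_simp
  · rw [eval_mul, hv]
    field_simp

end val

end Pool.Agent.X159.TZ
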