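import Pool.Agent.TH192.MU.Spec

set_option autoImplicit false

/-! # Topological zeta functions of `f` and `f + y z`: the values -/

namespace Pool.Agent.X159.TZ

open Pool.Agent.W428.MOT Pool.Agent.TH192.MU

section spec

variable {R : Type} [CommRing R] [IsDomain R] {u : Rˣ} {ε : R →+* ℂ}

/-- `(1 - v ^ k) = (u - 1) g_k`, `v = u⁻¹` -/
noncomputable def gk (u : Rˣ) (k : ℕ) : R :=
  ((u⁻¹ : Rˣ) : R) ^ k * ∑ i ∈ Finset.range k, (u : R) ^ i

omit [IsDomain R] in
theorem gk_mul (u : Rˣ) (k : ℕ) : ((u : R) - 1) * gk u k = 1 - ((u⁻¹ : Rˣ) : R) ^ k := by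
  have h1 : ((u⁻¹ : Rˣ) : R) ^ k * (u : R) ^ k = 1 := by
    rw [← mul_pow, Units.inv_mul, one_pow]
  have h2 := mul_geom_sum (u : R) k
  unfold gk
  linear_combination (((u⁻¹ : Rˣ) : R) ^ k) * h2 + h1

omit [IsDomain R] in
theorem eps_inv (h1 : ε (u : R) = 1) : ε ((u⁻¹ : Rˣ) : R) = 1 := by
  have h3 : ε ((u⁻¹ : Rˣ) : R) * ε (u : R) = 1 := by
    rw [← map_mul, Units.inv_mul, map_one]
  rwa [h1, mul_one] at h3

omit [IsDomain R] in
theorem eps_gk (h1 : ε (u : R) = 1) (k : ℕ) : ε (gk u k) = k := by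
  unfold gk
  rw [map_mul, map_pow, eps_inv h1, one_pow, one_mul, map_sum]
  simp [h1]

omit [IsDomain R] in
theorem gk_ne (h1 : ε (u : R) = 1) {k : ℕ} (hk : k ≠ 0) : gk u k ≠ 0 := by
  intro h
  have h2 := eps_gk (ε := ε) h1 k
  rw [h, map_zero] at h2
  exact hk (by exact_mod_cast h2.symm)

theorem one_sub_ne (h1 : ε (u : R) = 1) (hu : (u : R) ≠ 1) {k : ℕ} (hk : k ≠ 0) :
    (1 : R) - ((u⁻¹ : Rˣ) : R) ^ k ≠ 0 := by
  rw [← gk_mul]
  exact mul_ne_zero (sub_ne_zero.2 hu) (gk_ne h1 hk)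

omit [IsDomain R] in
/-- the rescaled polynomial -/
theorem coe_comp (c : R) (P : Polynomial R) :
    ((P.comp (Polynomial.C c * Polynomial.X) : Polynomial R) : PowerSeries R) =
      PowerSeries.rescale c (P : PowerSeries R) := by
  ext n
  rw [Polynomial.coeff_coe, PowerSeries.coeff_rescale, Polynomial.coeff_coe,
    Polynomial.comp_C_mul_X_coeff, mul_comm]

omit [IsDomain R] in
theorem rescale_C' (c r : R) : PowerSeries.rescale c (PowerSeries.C r) = PowerSeries.C r := by
  ext n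
  rw [PowerSeries.coeff_rescale, PowerSeries.coeff_C]
  split_ifs with h
  · rw [h, pow_zero, one_mul]
  · rw [mul_zero]

omit [IsDomain R] in
theorem rescale_X' (c : R) :
    PowerSeries.rescale c PowerSeries.X = PowerSeries.C c * PowerSeries.X := by
  ext n
  rw [PowerSeries.coeff_rescale, PowerSeries.coeff_X, PowerSeries.coeff_C_mul,
    PowerSeries.coeff_X]
  split_ifs with h
  · rw [h, pow_one]
  · rw [mul_zero, mul_zero]

/-- The value of the topological zeta function of `f + y z`: `Z` belongs to `f`, `Z'` to `f + y z`. -/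
theorem specAt_step (h1 : ε (u : R) = 1) (hu : (u : R) ≠ 1) {Z Z' : PowerSeries R} {φ : R} {m : ℕ}
    (h : (1 - PowerSeries.X) ^ 2 * PowerSeries.rescale (u : R) Z' =
      (PowerSeries.C (u : R) - PowerSeries.X) * (1 - PowerSeries.C (u : R) * PowerSeries.X) * Z +
        PowerSeries.C (((u : R) - 1) ^ 2 * φ) * PowerSeries.X ^ m) {s : ℕ} {c : ℂ}
    (hc : SpecAt u ε Z (s + 1) c) :
    SpecAt u ε Z' s ((s * (s + 2) * c + ε φ) / ((s : ℂ) + 1) ^ 2) := by
  obtain ⟨P, Q, x, y, hP, hQ, hx, hy, hxy⟩ := hc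
  set v : R := ((u⁻¹ : Rˣ) : R) with hv
  have hvu : v * (u : R) = 1 := Units.inv_mul u
  have hs : ((s : ℂ) + 1) ≠ 0 := by exact_mod_cast Nat.succ_ne_zero s
  have hval : (((u⁻¹) ^ s : Rˣ) : R) = v ^ s := by rw [Units.val_pow_eq_pow_val]
  have hval' : (((u⁻¹) ^ (s + 1) : Rˣ) : R) = v ^ (s + 1) := by rw [Units.val_pow_eq_pow_val]
  rw [hval'] at hQ hx
  -- rescaling back
  have h' : (1 - PowerSeries.C v * PowerSeries.X) ^ 2 * Z' =
      (PowerSeries.C (u : R) - PowerSeries.C v * PowerSeries.X) * (1 - PowerSeries.X) *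
        PowerSeries.rescale v Z + PowerSeries.C (((u : R) - 1) ^ 2 * φ) *
          (PowerSeries.C v * PowerSeries.X) ^ m := by
    have h2 := congrArg (PowerSeries.rescale v) h
    simp only [map_mul, map_pow, map_sub, map_one, rescale_X', PowerSeries.rescale_rescale,
      map_add, rescale_C'] at h2
    rw [mul_comm (u : R) v, hvu, PowerSeries.rescale_one, RingHom.id_apply] at h2
    rw [h2]
    have h3 : PowerSeries.C (u : R) * (PowerSeries.C v * PowerSeries.X) =
        (PowerSeries.X : PowerSeries R) := by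
      rw [← mul_assoc, ← map_mul, mul_comm (u : R) v, hvu, map_one, one_mul]
    rw [h3]
    simp only [map_mul, map_pow, map_sub, map_one]
  refine ⟨(Polynomial.C (u : R) - Polynomial.C v * Polynomial.X) * (1 - Polynomial.X) *
      P.comp (Polynomial.C v * Polynomial.X) + Polynomial.C (((u : R) - 1) ^ 2 * φ) *
      (Polynomial.C v * Polynomial.X) ^ m * Q.comp (Polynomial.C v * Polynomial.X),
    (1 - Polynomial.C v * Polynomial.X) ^ 2 * Q.comp (Polynomial.C v * Polynomial.X),
    (u : R) * gk u (s + 2) * gk u s * x + φ * (v ^ (s + 1)) ^ m * y, gk u (s + 1) ^ 2 * y, ?_, ?_, ?_, ?_, ?_⟩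
  · have h4 := congrArg (PowerSeries.rescale v) hP
    rw [map_mul] at h4
    simp only [Polynomial.coe_add, Polynomial.coe_mul, Polynomial.coe_sub, Polynomial.coe_pow,
      Polynomial.coe_one, Polynomial.coe_C, Polynomial.coe_X, coe_comp]
    linear_combination (PowerSeries.rescale v (Q : PowerSeries R)) * h' +
      ((PowerSeries.C (u : R) - PowerSeries.C v * PowerSeries.X) * (1 - PowerSeries.X)) * h4
  · rw [hval]
    simp only [Polynomial.eval_mul, Polynomial.eval_pow, Polynomial.eval_sub, Polynomial.eval_one,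
      Polynomial.eval_C, Polynomial.eval_X, Polynomial.eval_comp]
    rw [← pow_succ']
    exact mul_ne_zero (pow_ne_zero _ (one_sub_ne h1 hu (Nat.succ_ne_zero s))) hQ
  · rw [hval]
    simp only [Polynomial.eval_mul, Polynomial.eval_pow, Polynomial.eval_sub, Polynomial.eval_one,
      Polynomial.eval_C, Polynomial.eval_X, Polynomial.eval_comp, Polynomial.eval_add]
    rw [← pow_succ']
    have e1 := gk_mul u s
    have e2 := gk_mul u (s + 1)
    have e3 := gk_mul u (s + 2)
    rw [← hv] at e1 e2 e3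
    have e4 : (u : R) - v ^ (s + 1) = (u : R) * (((u : R) - 1) * gk u (s + 2)) := by
      rw [e3]
      linear_combination (v ^ (s + 1)) * hvu
    rw [e4, ← e1, ← e2]
    linear_combination (((u : R) - 1) ^ 2 * (u : R) * gk u (s + 2) * gk u s *
      gk u (s + 1) ^ 2) * hx
  · rw [map_mul, map_pow, eps_gk h1]
    refine mul_ne_zero (pow_ne_zero _ ?_) hy
    exact_mod_cast Nat.succ_ne_zero s
  · have hεv : ε v = 1 := eps_inv h1
    simp only [map_add, map_mul, map_pow, eps_gk h1, h1, hxy, hεv, one_pow]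
    push_cast
    field_simp

end spec

end Pool.Agent.X159.TZ
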