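import Pool.Agent.X159.TZ.Rel

set_option autoImplicit false

/-! # The covers of the sets of jets of `f + y z` -/

namespace Pool.Agent.X159.TZ

open MvPolynomial Pool.Agent.W428.MOT Pool.Agent.Y229.MS
open Pool.Agent.W375.MG (JetG)
open Pool.Agent.Y366.MS

variable {K : Type} [Field K] {n N : ℕ}

/-- the jet -/
def jt {m : ℕ} (z : Pt K (Unit ⊕ Fin m × Fin (N + 1))) : Pt K (Fin m × Fin (N + 1)) :=
  fun i => z (Sum.inr i)

/-- the coordinate `w` -/
def wc {m : ℕ} (z : Pt K (Unit ⊕ Fin m × Fin (N + 1))) : AlgebraicClosure K := z (Sum.inl ())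

theorem isPF_jt {m : ℕ} {F : Pt K (Fin m × Fin (N + 1)) → AlgebraicClosure K} (hF : IsPF F) :
    IsPF (fun z : Pt K (Unit ⊕ Fin m × Fin (N + 1)) => F (jt z)) :=
  hF.comp (fun z i => z (Sum.inr i)) fun _ => IsPF.coord _

theorem isPF_wc {m : ℕ} : IsPF (fun z : Pt K (Unit ⊕ Fin m × Fin (N + 1)) => wc z) :=
  IsPF.coord _

theorem constr_jt {m : ℕ} {S : Set (Pt K (Fin m × Fin (N + 1)))} (hS : Constr S) :
    Constr {z : Pt K (Unit ⊕ Fin m × Fin (N + 1)) | jt z ∈ S} :=
  hS.preimage (fun z i => z (Sum.inr i)) fun _ => IsPF.coord _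

theorem jt_upd {m : ℕ} (z : Pt K (Unit ⊕ Fin m × Fin (N + 1)))
    (p : Fin m × Fin (N + 1)) (c : AlgebraicClosure K) :
    jt (Function.update z (Sum.inr p) c) = Function.update (jt z) p c := by
  funext q
  by_cases h : q = p
  · subst h
    simp [jt]
  · rw [Function.update_of_ne h]
    show Function.update z (Sum.inr p) c (Sum.inr q) = z (Sum.inr q)
    rw [Function.update_of_ne]
    intro h'
    exact h (Sum.inr_injective h')

theorem wc_upd {m : ℕ} (z : Pt K (Unit ⊕ Fin m × Fin (N + 1)))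
    (p : Fin m × Fin (N + 1)) (c : AlgebraicClosure K) :
    wc (Function.update z (Sum.inr p) c) = wc z := by
  show Function.update z (Sum.inr p) c (Sum.inl ()) = z (Sum.inl ())
  rw [Function.update_of_ne]
  exact Sum.inl_ne_inr

/-- the pairs of a `w ≠ 0` and an `N`-jet `φ` with `f(φ) = w ^ k t ^ N mod t ^ (N + 1)` -/
def JC {m : ℕ} (f : MvPolynomial (Fin m) K) (k N : ℕ) : Set (Pt K (Unit ⊕ Fin m × Fin (N + 1))) :=
  {z | wc z ≠ 0 ∧ jt z ∈ JetG f Set.univ {c | c = wc z ^ k} N}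

theorem constr_JC {m : ℕ} (f : MvPolynomial (Fin m) K) (k N : ℕ) : Constr (JC f k N) := by
  unfold JC JetG
  refine Constr.and (Constr.eqz isPF_wc).not (Constr.and (Constr.const _)
    (Constr.and (Constr.allLt _ fun j _ => ?_) ?_))
  · exact Constr.eqz (isPF_jt (IsPA.aeval (fun i z => arc z i) (fun i => isPA_arc i) f j))
  · exact Constr.eq (isPF_jt (IsPA.aeval (fun i z => arc z i) (fun i => isPA_arc i) f N))
      (isPF_wc.pow k)

/-- a product with `𝔾_m` -/
theorem chi_gmprod {R : Type} [CommRing R] (M : Meas K R) {m : ℕ}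
    {T : Set (Pt K (Fin m × Fin (N + 1)))} (hT : Constr T) :
    M.χ _ {z : Pt K (Unit ⊕ Fin m × Fin (N + 1)) | wc z ≠ 0 ∧ jt z ∈ T} =
      (M.L - 1) * M.χ _ T := by
  have hS : Constr {z : Pt K Unit | z () ≠ 0} := (Constr.eqz (IsPF.coord ())).not
  have h1 := M.prod {z : Pt K Unit | z () ≠ 0} T hS hT
  have h2 : M.χ Unit {z : Pt K Unit | z () ≠ 0} = M.L - 1 := by
    rw [← Pool.Agent.W417.MT.Free.chi_gm M]
    refine M.iso _ _ hS (Constr.eqz (IsPF.coord 0)).not (fun z _ => z ()) (fun z _ => z 0)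
      (regularOn_poly (fun _ => IsPF.coord _) _) (regularOn_poly (fun _ => IsPF.coord _) _)
      (fun z hz => hz) (fun z hz => hz) (fun z _ => ?_) (fun z _ => ?_)
    · funext i
      cases i
      rfl
    · funext i
      rw [Subsingleton.elim i 0]
  rw [← h2, ← h1]
  rfl

/-! ### The part `ord y = i` -/

/-- conditions without `z_q` -/
def Rst (f : MvPolynomial (Fin n) K) (i q : ℕ) : Set (Pt K (Fin (n + 2) × Fin (N + 1))) :=
  {w | w ∈ Base f Set.univ i ∧ ∀ l < q, hh f i l w = 0}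

theorem mem_top (f : MvPolynomial (Fin n) K) (c : AlgebraicClosure K) (i q : ℕ) (hN : N = i + q)
    (w : Pt K (Fin (n + 2) × Fin (N + 1))) :
    w ∈ JetG (addyz f) Set.univ {a | a = c} N ∩ Yi n i N ↔ w ∈ Rst f i q ∧ hh f i q w = c := by
  have h := St_top (N := N) f Set.univ {a | a = c} i q hN
  have hwy : Wyz (Set.univ : Set (Pt K (Fin n))) = Set.univ := by
    ext w
    simp [Wyz]
  rw [hwy] at h
  rw [h]
  simp only [St, Rst, Set.mem_ofPred_eq]
  constructor
  · rintro ⟨h1, h2⟩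
    refine ⟨⟨h1, fun l hl => ?_⟩, ?_⟩
    · have := h2 l (by omega)
      rwa [if_pos (by omega), EE_lt _ _ _ hl] at this
    · have := h2 q (by omega)
      rwa [if_pos (by omega), EE_self] at this
  · rintro ⟨⟨h1, h2⟩, h3⟩
    refine ⟨h1, fun l hl => ?_⟩
    rw [if_pos hl]
    by_cases hlq : l < q
    · rw [EE_lt _ _ _ hlq]
      exact h2 l hlq
    · obtain rfl : l = q := by omega
      rw [EE_self]
      exact h3

theorem constr_Rst (f : MvPolynomial (Fin n) K) (i q : ℕ) : Constr (Rst (N := N) f i q) := by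
  unfold Rst
  exact Constr.and (constr_Base f Constr.univ i)
    (Constr.allLt _ fun l _ => Constr.eqz (isPF_hh f i l))

theorem Rst_upd (f : MvPolynomial (Fin n) K) (i q : ℕ) (hq : q < N + 1)
    (w : Pt K (Fin (n + 2) × Fin (N + 1))) (c : AlgebraicClosure K) :
    Function.update w (Fin.natAdd n 1, ⟨q, hq⟩) c ∈ Rst f i q ↔ w ∈ Rst f i q := by
  unfold Rst
  simp only [Set.mem_ofPred_eq, Base_upd]
  refine and_congr_right fun _ => forall₂_congr fun l hl => ?_
  rw [hh_upd w ⟨q, hq⟩ c f i l hl]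

/-- the pairs with `hh = v` -/
def SA (f : MvPolynomial (Fin n) K) (i q : ℕ)
    (v : Pt K (Unit ⊕ Fin (n + 2) × Fin (N + 1)) → AlgebraicClosure K) :
    Set (Pt K (Unit ⊕ Fin (n + 2) × Fin (N + 1))) :=
  {z | wc z ≠ 0 ∧ jt z ∈ Rst f i q ∧ hh f i q (jt z) = v z}

/-- the pairs with `z_q = v` -/
def SB (f : MvPolynomial (Fin n) K) (i q : ℕ)
    (v : Pt K (Unit ⊕ Fin (n + 2) × Fin (N + 1)) → AlgebraicClosure K) :
    Set (Pt K (Unit ⊕ Fin (n + 2) × Fin (N + 1))) :=
  {z | wc z ≠ 0 ∧ jt z ∈ Rst f i q ∧ Zc (jt z) q = v z}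

theorem constr_SA (f : MvPolynomial (Fin n) K) (i q : ℕ)
    {v : Pt K (Unit ⊕ Fin (n + 2) × Fin (N + 1)) → AlgebraicClosure K} (hv : IsPF v) :
    Constr (SA f i q v) :=
  Constr.and (Constr.eqz isPF_wc).not (Constr.and (constr_jt (constr_Rst f i q))
    (Constr.eq (isPF_jt (isPF_hh f i q)) hv))

theorem constr_SB (f : MvPolynomial (Fin n) K) (i q : ℕ)
    {v : Pt K (Unit ⊕ Fin (n + 2) × Fin (N + 1)) → AlgebraicClosure K} (hv : IsPF v) :
    Constr (SB f i q v) :=
  Constr.and (Constr.eqz isPF_wc).not (Constr.and (constr_jt (constr_Rst f i q))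
    (Constr.eq (isPF_jt (isPF_Zc q)) hv))

section
variable {R : Type} [CommRing R] (M : Meas K R)

theorem SA_SB (f : MvPolynomial (Fin n) K) (i q : ℕ) (hq : q < N + 1)
    {v : Pt K (Unit ⊕ Fin (n + 2) × Fin (N + 1)) → AlgebraicClosure K} (hv : IsPF v)
    (hv' : ∀ z c, v (Function.update z (Sum.inr (Fin.natAdd n 1, ⟨q, hq⟩)) c) = v z) :
    M.χ _ (SA f i q v) = M.χ _ (SB f i q v) := by
  classical
  refine Pool.Agent.W21.MTSub.main M _ _ (Sum.inr (Fin.natAdd n 1, (⟨q, hq⟩ : Fin (N + 1))))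
    (fun z => Yc (jt z) i) (fun z => bb f i q (jt z)) (constr_SA f i q hv) (constr_SB f i q hv)
    (isPF_jt (isPF_Yc i)) (isPF_jt (isPF_bb f i q)) ?_ ?_ (fun z hz => hz.2.1.1.2.2.2)
    (fun z hz => hz.2.1.1.2.2.2) ?_
  · intro z c
    rw [jt_upd, Yc_upd]
  · intro z c
    rw [jt_upd]
    exact bb_upd (jt z) ⟨q, hq⟩ c f i q le_rfl
  · intro z _
    have hZ : z (Sum.inr (Fin.natAdd n 1, (⟨q, hq⟩ : Fin (N + 1)))) = Zc (jt z) q :=
      (Zc_of_lt (jt z) q hq).symm
    rw [hZ, ← hh_eq]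
    unfold SA SB
    simp only [Set.mem_ofPred_eq, wc_upd, jt_upd, Rst_upd, hv']
    have h2 := Zc_upd_self (jt z) ⟨q, hq⟩ (hh f i q (jt z))
    simp only at h2
    rw [h2]

theorem SB_SB (f : MvPolynomial (Fin n) K) (i q : ℕ) (hq : q < N + 1)
    {v : Pt K (Unit ⊕ Fin (n + 2) × Fin (N + 1)) → AlgebraicClosure K} (hv : IsPF v)
    (hv' : ∀ z c, v (Function.update z (Sum.inr (Fin.natAdd n 1, ⟨q, hq⟩)) c) = v z) :
    M.χ _ (SB f i q v) = M.χ _ (SB (N := N) f i q (fun _ => 1)) := by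
  classical
  refine Pool.Agent.W21.MTSub.main M _ _ (Sum.inr (Fin.natAdd n 1, (⟨q, hq⟩ : Fin (N + 1))))
    (fun _ => 1) (fun z => 1 - v z) (constr_SB f i q hv) (constr_SB f i q IsPF.one)
    IsPF.one (IsPF.one.sub hv) (fun _ _ => rfl) (fun z c => by rw [hv']) (fun _ _ => one_ne_zero)
    (fun _ _ => one_ne_zero) ?_
  intro z _
  have hZ : z (Sum.inr (Fin.natAdd n 1, (⟨q, hq⟩ : Fin (N + 1)))) = Zc (jt z) q :=
    (Zc_of_lt (jt z) q hq).symm
  rw [hZ, one_mul]
  unfold SB
  simp only [Set.mem_ofPred_eq, wc_upd, jt_upd, Rst_upd]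
  have h2 := Zc_upd_self (jt z) ⟨q, hq⟩ (Zc (jt z) q + (1 - v z))
  simp only at h2
  rw [h2]
  refine and_congr_right fun _ => and_congr_right fun _ => ⟨fun h => ?_, fun h => ?_⟩
  · rw [h]
    ring
  · linear_combination h

/-- the part `ord y = i` of the cover -/
theorem coverA (f : MvPolynomial (Fin n) K) (k i : ℕ) (hi : i ≤ N) :
    M.χ _ (JC (addyz f) k N ∩ {z | jt z ∈ Yi n i N}) =
      (M.L - 1) * ((M.L - 1) * M.L ^ N * M.χ _ (Tl f Set.univ i N)) := by
  obtain ⟨q, hN⟩ := Nat.exists_eq_add_of_le hi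
  have hq1 : q < N + 1 := by omega
  have e1 : JC (addyz f) k N ∩ {z | jt z ∈ Yi n i N} = SA f i q (fun z => wc z ^ k) := by
    ext z
    have h := mem_top f (wc z ^ k) i q hN (jt z)
    simp only [JC, SA, Set.mem_inter_iff, Set.mem_ofPred_eq] at h ⊢
    rw [← h]
    tauto
  have e2 : SA (N := N) f i q (fun _ => 1) = {z | wc z ≠ 0 ∧ jt z ∈
      JetG (addyz f) Set.univ {a | a = 1} N ∩ Yi n i N} := by
    ext z
    have h := mem_top f 1 i q hN (jt z)
    simp only [SA, Set.mem_ofPred_eq] at h ⊢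
    rw [h]
  have c1 : Constr (JetG (addyz f) Set.univ {a | a = 1} N ∩ Yi n i N) := by
    have h : JetG (addyz f) Set.univ {a | a = 1} N ∩ Yi n i N =
        {w | w ∈ Rst f i q ∧ hh f i q w = 1} := by
      ext w
      exact mem_top f 1 i q hN w
    rw [h]
    exact Constr.and (constr_Rst f i q) (Constr.eq (isPF_hh f i q) IsPF.one)
  have hwy : Wyz (Set.univ : Set (Pt K (Fin n))) = Set.univ := by
    ext w
    simp [Wyz]
  rw [e1, SA_SB M f i q hq1 (isPF_wc.pow k) (fun z c => by rw [wc_upd]),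
    SB_SB M f i q hq1 (isPF_wc.pow k) (fun z c => by rw [wc_upd]),
    ← SA_SB M f i q hq1 IsPF.one (fun _ _ => rfl), e2, chi_gmprod M c1]
  congr 1
  have hE : CE ({a | a = 1} : Set (AlgebraicClosure K)) := fun F hF => Constr.eq hF IsPF.one
  have h3 := onea K R M f Set.univ {a | a = 1} Constr.univ hE i N hi
  rw [hwy] at h3
  rw [h3]
  have h4 : M.χ (Fin 1) {a : Pt K (Fin 1) | a 0 ∈ ({a | a = 1} : Set (AlgebraicClosure K))} =
      1 := by
    rw [← chi_single M (ι := Fin 1) (fun _ => (1 : K))]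
    congr 1
    ext a
    simp only [Set.mem_ofPred_eq, Set.mem_singleton_iff, map_one]
    constructor
    · intro h
      funext j
      rw [Subsingleton.elim j 0]
      exact h
    · rintro rfl
      rfl
  rw [h4, one_mul]

/-! ### The part `y = 0` -/

theorem coverB (f : MvPolynomial (Fin n) K) (k : ℕ) :
    M.χ _ (JC (addyz f) k N ∩ {z | ∀ j, jt z (Fin.natAdd n 0, j) = 0}) =
      M.χ _ (JC f k N) * M.L ^ (N + 1) := by
  have h1 := M.prod (JC f k N) (Set.univ : Set (Pt K (Fin (N + 1)))) (constr_JC f k N)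
    Constr.univ
  rw [chi_univ, Fintype.card_fin] at h1
  rw [← h1]
  have hmem : ∀ (z : Pt K (Unit ⊕ Fin (n + 2) × Fin (N + 1))),
      (∀ j, jt z (Fin.natAdd n 0, j) = 0) →
      (z ∈ JC (addyz f) k N ↔ wc z ≠ 0 ∧
        Pool.Agent.Y971.MS.fg N (jt z) ∈ JetG f Set.univ {c | c = wc z ^ k} N) := by
    intro z hz
    have h := Pool.Agent.Y971.MS.mem_y0 f Set.univ {c | c = wc z ^ k} (jt z) hz
    have hwy : Wyz (Set.univ : Set (Pt K (Fin n))) = Set.univ := by
      ext w
      simp [Wyz]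
    rw [hwy] at h
    simp only [JC, Set.mem_ofPred_eq]
    rw [h]
  have c0 : Constr ({z | ∀ j, jt z (Fin.natAdd n 0, j) = 0} :
      Set (Pt K (Unit ⊕ Fin (n + 2) × Fin (N + 1)))) :=
    Constr.all fun j => Constr.eqz (isPF_jt (IsPF.coord _))
  have c1 : Constr {z : Pt K ((Unit ⊕ Fin n × Fin (N + 1)) ⊕ Fin (N + 1)) |
      (fun i => z (Sum.inl i)) ∈ JC f k N ∧ (fun i => z (Sum.inr i)) ∈
        (Set.univ : Set (Pt K (Fin (N + 1))))} :=
    Constr.and ((constr_JC f k N).preimage (fun z i => z (Sum.inl i)) fun _ => IsPF.coord _)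
      (Constr.const _)
  refine M.iso _ _ ((constr_JC _ k N).inter c0) c1
    (fun z => Sum.elim (Sum.elim (fun _ => wc z) fun p => z (Sum.inr (Fin.castAdd 2 p.1, p.2)))
      fun j => z (Sum.inr (Fin.natAdd n 1, j)))
    (fun z => Sum.elim (fun _ => z (Sum.inl (Sum.inl ()))) fun p =>
      Fin.addCases (fun i => z (Sum.inl (Sum.inr (i, p.2))))
        (fun i => if i = 0 then 0 else z (Sum.inr p.2)) p.1)
    (regularOn_poly ?_ _) (regularOn_poly ?_ _) ?_ ?_ ?_ ?_
  · rintro ((_ | p) | j)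
    · exact IsPF.coord _
    · exact IsPF.coord _
    · exact IsPF.coord _
  · rintro (_ | ⟨i, j⟩)
    · exact IsPF.coord _
    · refine Fin.addCases (fun i => ?_) (fun i => ?_) i
      · simp only [Sum.elim_inr, Fin.addCases_left]
        exact IsPF.coord _
      · simp only [Sum.elim_inr, Fin.addCases_right]
        split_ifs
        · exact IsPF.zero
        · exact IsPF.coord _
  · rintro z ⟨hz1, hz2⟩
    exact ⟨(hmem z hz2).1 hz1, Set.mem_univ _⟩
  · rintro z ⟨hz1, -⟩
    set z' : Pt K (Unit ⊕ Fin (n + 2) × Fin (N + 1)) :=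
      Sum.elim (fun _ => z (Sum.inl (Sum.inl ()))) fun p =>
        Fin.addCases (fun i => z (Sum.inl (Sum.inr (i, p.2))))
          (fun i => if i = 0 then 0 else z (Sum.inr p.2)) p.1 with hz'
    have h0 : ∀ j, jt z' (Fin.natAdd n 0, j) = 0 := by
      intro j
      show (Fin.addCases (fun i => z (Sum.inl (Sum.inr (i, j))))
        (fun i => if i = 0 then 0 else z (Sum.inr j)) (Fin.natAdd n (0 : Fin 2)) :
          AlgebraicClosure K) = 0
      rw [Fin.addCases_right, if_pos rfl]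
    refine ⟨(hmem z' h0).2 ?_, h0⟩
    have hfg : Pool.Agent.Y971.MS.fg N (jt z') = jt (fun i => z (Sum.inl i)) := by
      funext p
      show (Fin.addCases (fun i => z (Sum.inl (Sum.inr (i, p.2))))
        (fun i => if i = 0 then 0 else z (Sum.inr p.2)) (Fin.castAdd 2 p.1) :
          AlgebraicClosure K) = z (Sum.inl (Sum.inr p))
      rw [Fin.addCases_left]
    rw [hfg]
    exact hz1
  · rintro z ⟨-, hz2⟩
    funext p
    rcases p with (_ | ⟨i, j⟩)
    · rfl
    · refine Fin.addCases (fun i => ?_) (fun i => ?_) i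
      · simp only [Sum.elim_inr, Fin.addCases_left, Sum.elim_inl]
      · simp only [Sum.elim_inr, Fin.addCases_right]
        by_cases h : i = 0
        · subst h
          rw [if_pos rfl]
          exact (hz2 j).symm
        · obtain rfl : i = 1 := by
            have := i.2
            have h' : (i : ℕ) ≠ 0 := fun h'' => h (Fin.ext h'')
            exact Fin.ext (by simp only [Fin.val_one]; omega)
          rw [if_neg h]
  · rintro z -
    funext p
    rcases p with ((_ | ⟨i, j⟩) | j)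
    · rfl
    · simp only [Sum.elim_inl, Sum.elim_inr, Fin.addCases_left]
    · simp only [Sum.elim_inr, Fin.addCases_right]
      rw [if_neg (by decide)]

/-- **The class of the cover of the jets of `f + y z`.** -/
theorem coverC (f : MvPolynomial (Fin n) K) (k : ℕ) :
    M.χ _ (JC (addyz f) k N) = M.χ _ (JC f k N) * M.L ^ (N + 1) +
      (M.L - 1) * (M.L - 1) * M.L ^ N *
        ∑ i ∈ Finset.range (N + 1), M.χ _ (Tl f Set.univ i N) := by
  classical
  have cY : ∀ i : ℕ, Constr (Yi (K := K) n i N) := by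
    intro i
    unfold Yi
    exact (Constr.all fun j => Constr.imp' fun _ => Constr.eqz (IsPF.coord _)).and
      (Constr.all fun j => Constr.imp' fun _ => (Constr.eqz (IsPF.coord _)).not)
  obtain ⟨P, hP⟩ : ∃ P : Option (Fin (N + 1)) → Set (Pt K (Unit ⊕ Fin (n + 2) × Fin (N + 1))),
      P = fun a => Option.elim a {w | ∀ j, jt w (Fin.natAdd n 0, j) = 0}
        fun i : Fin (N + 1) => {w | jt w ∈ Yi n (i : ℕ) N} := ⟨_, rfl⟩
  have hcov := Pool.Agent.W749.MT.χ_cover M (JC (addyz f) k N) P (constr_JC _ k N) (by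
      intro a
      rw [hP]
      cases a with
      | none => exact Constr.all fun j => Constr.eqz (isPF_jt (IsPF.coord _))
      | some i => exact constr_jt (cY i))
    (by
      intro a b hab
      rw [Set.disjoint_left, hP]
      cases a with
      | none =>
        cases b with
        | none => exact absurd rfl hab
        | some b =>
          intro z hz hz'
          exact hz'.2 b rfl (hz b)
      | some a =>
        cases b with
        | none =>
          intro z hz hz'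
          exact hz.2 a rfl (hz' a)
        | some b =>
          intro z hz hz'
          rcases lt_trichotomy (a : ℕ) (b : ℕ) with h1 | h1 | h1
          · exact hz.2 a rfl (hz'.1 a h1)
          · exact hab (by rw [Fin.ext h1])
          · exact hz'.2 b rfl (hz.1 b h1))
    (by
      intro z _
      rw [hP]
      by_cases h0 : ∀ j, jt z (Fin.natAdd n 0, j) = 0
      · exact ⟨none, h0⟩
      · push Not at h0
        have hex : ∃ k : ℕ, ∃ hk : k < N + 1, jt z (Fin.natAdd n 0, ⟨k, hk⟩) ≠ 0 := by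
          obtain ⟨j, hj⟩ := h0
          exact ⟨j, j.2, hj⟩
        obtain ⟨hk, hne⟩ := Nat.find_spec hex
        refine ⟨some ⟨Nat.find hex, hk⟩, ?_, ?_⟩
        · intro j hj
          have := Nat.find_min hex hj
          push Not at this
          exact this j.2
        · intro j hj
          have e : j = ⟨Nat.find hex, hk⟩ := Fin.ext hj
          rw [e]
          exact hne)
  rw [hcov, Fintype.sum_option, hP]
  simp only [Option.elim]
  rw [coverB M f k, Finset.mul_sum, Finset.sum_range]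
  congr 1
  refine Finset.sum_congr rfl fun i _ => ?_
  rw [coverA M f k i (Nat.lt_succ_iff.1 i.2)]
  ring

end

end Pool.Agent.X159.TZ
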