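import Pool.Agent.X159.TZ.RDefs
import Pool.Agent.TH192.MU.TDefs
import Pool.Agent.X271.LocDef

set_option autoImplicit false

/-! # Topological zeta functions and `b`-functions: definitions -/

namespace Pool.Agent.X159.TZ

open MvPolynomial Pool.Agent.W428.MOT Pool.Agent.TH192.MU Pool.Agent.H628R4.TP
open Pool.Agent.TH192.MT (zetaM)
open Pool.Agent.X271.RD (trans pt)

section
variable {R : Type} [CommRing R]

/-- the property `P` of the topological zeta function and the `b`-functions of `f` -/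
def TopP (E : MK ℂ →+* R) (ε : R →+* ℂ) (P : RatFunc ℂ → Polynomial ℂ → Prop) {n : ℕ}
    (f : MvPolynomial (Fin n) ℂ) : Prop :=
  ∀ Z : RatFunc ℂ, IsTopZeta E ε (zetaM f Set.univ {c | c ≠ 0}) Z →
    ∀ b : Polynomial ℂ, IsBFunction f b → P Z b

/-- the property `P` of the local topological zeta function and the local `b`-functions of `f` at `x` -/
def TopL (E : MK ℂ →+* R) (ε : R →+* ℂ) (P : RatFunc ℂ → Polynomial ℂ → Prop) {n : ℕ}
    (f : MvPolynomial (Fin n) ℂ) (x : Fin n → ℂ) : Prop :=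
  ∀ Z : RatFunc ℂ, IsTopZeta E ε (zetaM f {pt ℂ x} {c | c ≠ 0}) Z →
    ∀ b : Polynomial ℂ, IsLocalBFunction (trans x f) b → P Z b

/-- the point `(x, 0, 0)` -/
noncomputable def ext0 {n : ℕ} (x : Fin n → ℂ) : Fin (n + 2) → ℂ := Fin.append x fun _ => 0

/-- the point `(x, 0, …, 0)` with `2 κ` zeros -/
noncomputable def exI {n : ℕ} (x : Fin n → ℂ) : (κ : ℕ) → Fin (n + 2 * κ) → ℂ
  | 0 => x
  | κ + 1 => ext0 (exI x κ)

/-- the image of the point `x` under the isomorphism `Φ` of polynomial rings: `eval x' (Φ g) = eval x g` -/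
noncomputable def imP {a b : ℕ} (Φ : MvPolynomial (Fin a) ℂ ≃ₐ[ℂ] MvPolynomial (Fin b) ℂ)
    (x : Fin a → ℂ) (j : Fin b) : ℂ := eval x (Φ.symm (X j))

end

end Pool.Agent.X159.TZ
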