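import Pool.Agent.X159.TZ.Defs
import Pool.Agent.X159.TZ.Rel
import Pool.Agent.X159.TZ.Desc
import Pool.Agent.X271.RefThm

set_option autoImplicit false

/-! # Reduction to cubics for the topological zeta function -/

namespace Pool.Agent.X159.TZ

open MvPolynomial Pool.Agent.W428.MOT Pool.Agent.TH192.MU Pool.Agent.H628R4.TP
open Pool.Agent.TH192.MT (zetaM)
open Pool.Agent.W375.MG (zetaG good_units)
open Pool.Agent.Y229.MS (addyz itr zeta_iso ce_good)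
open Pool.Agent.X271.RD (cubic stab)

section
variable {R : Type} [CommRing R] {E : MK ℂ →+* R} {ε : R →+* ℂ} {n : ℕ}

theorem zetaM_eq {n : ℕ} (f : MvPolynomial (Fin n) ℂ) (W : Set (Pt ℂ (Fin n)))
    (A : Set (AlgebraicClosure ℂ)) : zetaM f W A = zetaG f W A := by
  ext d
  rw [zetaM, zetaG, PowerSeries.coeff_mk, PowerSeries.coeff_mk, Fintype.card_fin]
  rfl

theorem reg_of_top {Zm : PowerSeries (MK ℂ)} {Z : RatFunc ℂ} (h : IsTopZeta E ε Zm Z) :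
    ∀ s : ℕ, 0 < s → Reg (s : ℂ) Z := by
  intro s hs
  obtain ⟨c, -, h2⟩ := h s hs
  exact reg_iff.2 (val_reg h2)

theorem top_unique [IsDomain R] {Zm : PowerSeries (MK ℂ)} {Z Z' : RatFunc ℂ}
    (h : IsTopZeta E ε Zm Z) (h' : IsTopZeta E ε Zm Z') : Z = Z' := by
  refine eq_of_val fun s hs => ?_
  obtain ⟨c, h1, h2⟩ := h s hs
  obtain ⟨c', h1', h2'⟩ := h' s hs
  obtain rfl := specAt_unique h1 h1'
  exact ⟨c, h2, h2'⟩

theorem top_addyz [IsDomain R] (hε : ε (E ((Lu ℂ : (MK ℂ)ˣ) : MK ℂ)) = 1)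
    (hE : E ((Lu ℂ : (MK ℂ)ˣ) : MK ℂ) ≠ 1) {f : MvPolynomial (Fin n) ℂ} {Z : RatFunc ℂ}
    (h : IsTopZeta E ε (zetaG f Set.univ {c | c ≠ 0}) Z) :
    IsTopZeta E ε (zetaG (addyz f) Set.univ {c | c ≠ 0}) (stp 1 Z) := by
  intro s hs
  obtain ⟨c, h1, h2⟩ := h (s + 1) (Nat.succ_pos s)
  exact ⟨_, topZeta_step hε hE f s c h1, val_stp 1 h2⟩

theorem top_itr [IsDomain R] (hε : ε (E ((Lu ℂ : (MK ℂ)ˣ) : MK ℂ)) = 1)
    (hE : E ((Lu ℂ : (MK ℂ)ˣ) : MK ℂ) ≠ 1) {f : MvPolynomial (Fin n) ℂ} {Z : RatFunc ℂ}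
    (h : IsTopZeta E ε (zetaG f Set.univ {c | c ≠ 0}) Z) :
    ∀ κ : ℕ, IsTopZeta E ε (zetaG (itr f κ) Set.univ {c | c ≠ 0}) (stpK 1 κ Z)
  | 0 => by
    rw [stpK_zero]
    exact h
  | κ + 1 => by
    rw [← stpK_succ]
    exact top_addyz hε hE (top_itr hε hE h κ)

theorem zetaG_iso {a b : ℕ} (hab : a = b)
    (Φ : MvPolynomial (Fin a) ℂ ≃ₐ[ℂ] MvPolynomial (Fin b) ℂ) (g : MvPolynomial (Fin a) ℂ) :
    zetaG (Φ g) Set.univ {c | c ≠ 0} = zetaG g Set.univ {c | c ≠ 0} := by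
  have h := zeta_iso Pool.Agent.Z864.MS.three hab Φ g (W := Set.univ) Constr.univ
    (E := {c | c ≠ 0}) (ce_good good_units)
  simpa using h

theorem topP_iso {P : RatFunc ℂ → Polynomial ℂ → Prop} {a b : ℕ} (hab : a = b)
    (Φ : MvPolynomial (Fin a) ℂ ≃ₐ[ℂ] MvPolynomial (Fin b) ℂ) {g : MvPolynomial (Fin a) ℂ}
    (h : TopP E ε P (Φ g)) : TopP E ε P g := by
  intro Z hZ c hc
  refine h Z ?_ c (Pool.Agent.W206.CU.isBFunction_iso Φ hc)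
  rw [zetaM_eq, zetaG_iso hab Φ, ← zetaM_eq]
  exact hZ

/-- the topological zeta function of `f + ∑_{i < κ} y_i z_i` -/
theorem top_stab [IsDomain R] (hε : ε (E ((Lu ℂ : (MK ℂ)ˣ) : MK ℂ)) = 1)
    (hE : E ((Lu ℂ : (MK ℂ)ˣ) : MK ℂ) ≠ 1) {f : MvPolynomial (Fin n) ℂ} {Z : RatFunc ℂ}
    (h : IsTopZeta E ε (zetaM f Set.univ {c | c ≠ 0}) Z) (κ : ℕ)
    (Φ : MvPolynomial (Fin (n + (κ + κ))) ℂ ≃ₐ[ℂ] MvPolynomial (Fin (n + (κ + κ))) ℂ) :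
    IsTopZeta E ε (zetaM (Φ (stab f κ)) Set.univ {c | c ≠ 0}) (stpK 1 κ Z) := by
  obtain ⟨ψ, hψ⟩ := Pool.Agent.Y405.MS.itr ℂ f κ
  have h1 : stab f κ = ψ (itr f κ) := by
    rw [hψ]
    rfl
  rw [zetaM_eq, zetaG_iso rfl Φ, h1, zetaG_iso (by ring) ψ]
  exact top_itr hε hE (by rwa [zetaM_eq] at h) κ

/-- **Transfer.** -/
theorem transferT [IsDomain R] (hε : ε (E ((Lu ℂ : (MK ℂ)ˣ) : MK ℂ)) = 1)
    (hE : E ((Lu ℂ : (MK ℂ)ˣ) : MK ℂ) ≠ 1) {P : RatFunc ℂ → Polynomial ℂ → Prop} {κ : ℕ}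
    (hP : Desc κ P) {f : MvPolynomial (Fin n) ℂ} (hf : f.totalDegree ≠ 0)
    (Φ : MvPolynomial (Fin (n + (κ + κ))) ℂ ≃ₐ[ℂ] MvPolynomial (Fin (n + (κ + κ))) ℂ)
    (h : TopP E ε P (Φ (stab f κ))) : TopP E ε P f := by
  intro Z hZ b hb
  obtain ⟨h1, h2⟩ := Pool.Agent.Y229.PG.becomes_global (k := κ) (G := Φ (stab f κ)) hf hb ⟨Φ, rfl⟩
  obtain ⟨c, hc⟩ : (Polynomial.X + 1 : Polynomial ℂ) ∣ b := by
    have := Polynomial.dvd_iff_isRoot.2 h1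
    simpa using this
  rw [hc]
  exact hP Z c (reg_of_top hZ) (h _ (top_stab hε hE hZ κ Φ) _ (h2 c hc))

theorem map_itr {k : Type} [Field k] [Algebra k ℂ] {n : ℕ} (f : MvPolynomial (Fin n) k) :
    ∀ κ : ℕ, map (algebraMap k ℂ) (itr f κ) = itr (map (algebraMap k ℂ) f) κ
  | 0 => rfl
  | κ + 1 => by
    show map (algebraMap k ℂ) (addyz (itr f κ)) = addyz (itr (map (algebraMap k ℂ) f) κ)
    rw [Pool.Agent.X271.RC.map_addyz, map_itr f κ]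

/-- **Reduction to cubics.** -/
theorem cubicsT [IsDomain R] (hε : ε (E ((Lu ℂ : (MK ℂ)ˣ) : MK ℂ)) = 1)
    (hE : E ((Lu ℂ : (MK ℂ)ˣ) : MK ℂ) ≠ 1) {P : RatFunc ℂ → Polynomial ℂ → Prop}
    (hP : ∀ κ, 2 ≤ κ → Desc κ P) (k : Type) [Field k] [Algebra k ℂ] :
    (∀ (n : ℕ) (f : MvPolynomial (Fin n) k), f.totalDegree ≠ 0 →
      TopP E ε P (map (algebraMap k ℂ) f)) ↔
    ∀ (n l : ℕ) (q : Fin l → MvPolynomial (Fin (n + 1)) k), (∀ j, (q j).totalDegree ≤ 2) →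
      TopP E ε P (map (algebraMap k ℂ) (cubic q)) := by
  refine ⟨fun h n l q _ => h _ _ (Pool.Agent.X271.RC.cubic_deg q), fun h n f hf => ?_⟩
  obtain ⟨m, hm, -, n2, l2, q2, hq2, hn2, Φ2, hΦ2⟩ := Pool.Agent.X271.RC.universal f
  obtain ⟨ψ2, hψ2⟩ := Pool.Agent.Y405.MS.bc k ℂ Φ2
  have h1 : TopP E ε P (itr (map (algebraMap k ℂ) f) (m + 1)) := topP_iso hn2 ψ2 (by
    rw [← map_itr, hψ2, hΦ2]
    exact h _ _ _ hq2)
  obtain ⟨ψ, hψ⟩ := Pool.Agent.Y405.MS.itr ℂ (map (algebraMap k ℂ) f) (m + 1)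
  have h2 : TopP E ε P (stab (map (algebraMap k ℂ) f) (m + 1)) := topP_iso (by ring) ψ.symm (by
    have h3 : ψ.symm (stab (map (algebraMap k ℂ) f) (m + 1)) =
        itr (map (algebraMap k ℂ) f) (m + 1) := by
      rw [AlgEquiv.symm_apply_eq, hψ]
      rfl
    rwa [h3])
  exact transferT hε hE (hP (m + 1) (by omega)) (Pool.Agent.X271.RC.deg_map hf) AlgEquiv.refl h2

end

end Pool.Agent.X159.TZ
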