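import Pool.Agent.X159.TZ.Glob
import Pool.Agent.X271.LocRef

set_option autoImplicit false

/-! # Reduction to cubics for the local topological zeta functions -/

namespace Pool.Agent.X159.TZ

open MvPolynomial Pool.Agent.W428.MOT Pool.Agent.TH192.MU Pool.Agent.H628R4.TP
open Pool.Agent.TH192.MT (zetaM)
open Pool.Agent.W375.MG (zetaG good_units)
open Pool.Agent.Y229.MS
open Pool.Agent.X271.RD (cubic stab trans pt)
open Pool.Agent.X271.LR (W0 Zr pl pl_mul ex0 w0_pt constr_pt' zr_pt eval_ex0 trans_addyz transE const_trans trans_ne loc_iso trans_X addyz_ne aeval_pt)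

section
variable {n : ℕ} {R : Type} [CommRing R]

/-- the relation for `f + y z` at the points with `y = z = 0` -/
theorem rel_local {K : Type} [Field K] (M : Meas K R) (Y : R) (hL : M.L * Y = 1)
    (f : MvPolynomial (Fin n) K) {W : Set (Pt K (Fin n))} (hW : Constr W) (hf : Zr f W) :
    (1 - PowerSeries.X) ^ 2 * PowerSeries.rescale M.L (zs M Y (addyz f) (W0 W) {a | a ≠ 0}) =
      (PowerSeries.C M.L - PowerSeries.X) * (1 - PowerSeries.C M.L * PowerSeries.X) *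
        zs M Y f W {a | a ≠ 0} + PowerSeries.C ((M.L - 1) ^ 2 * wt M f W) * PowerSeries.X ^ 2 := by
  have h1 := Pool.Agent.X271.LR.rel1 M Y hL f hW hf (E := {a | a ≠ 0})
    (ce_good (K := K) good_units) (by simp)
  have h2 := pl_mul M Y f W
  have h3 := phi_units M Y hL f hW
  have h4 : M.χ (Fin 1) {a : Pt K (Fin 1) | a 0 ∈ ({c | c ≠ 0} : Set (AlgebraicClosure K))} =
      M.L - 1 := Pool.Agent.W417.MT.Free.chi_gm M
  have h5 : Pool.Agent.X271.LR.wt M f W = wt M f W := rfl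
  rw [h5] at h2
  rw [h4] at h1
  rw [h1, map_mul PowerSeries.C ((M.L - 1) ^ 2), map_pow, map_mul PowerSeries.C,
    map_sub, map_one]
  linear_combination ((PowerSeries.C M.L - 1) ^ 2 * (1 - PowerSeries.X)) * h2 +
    ((PowerSeries.C M.L - 1) ^ 2) * h3

variable {E : MK ℂ →+* R} {ε : R →+* ℂ}

theorem topZeta_stepL [IsDomain R]
    (hε : ε (E ((Lu ℂ : (MK ℂ)ˣ) : MK ℂ)) = 1) (hE : E ((Lu ℂ : (MK ℂ)ˣ) : MK ℂ) ≠ 1)
    (f : MvPolynomial (Fin n) ℂ) {x : Fin n → ℂ} (hx : eval x f = 0) (s : ℕ) (c : ℂ)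
    (hc : SpecAt (Units.map (E : MK ℂ →* R) (Lu ℂ)) ε
        (PowerSeries.map E (zetaG f {pt ℂ x} {a | a ≠ 0})) (s + 1) c) :
      SpecAt (Units.map (E : MK ℂ →* R) (Lu ℂ)) ε
        (PowerSeries.map E (zetaG (addyz f) {pt ℂ (ex0 x)} {a | a ≠ 0})) s
        ((s * (s + 2) * c + 1) / ((s : ℂ) + 1) ^ 2) := by
  obtain ⟨M, hML, hL, hz⟩ := exists_meas ℂ
  have hzr : Zr f ({pt ℂ x} : Set (Pt ℂ (Fin n))) := by
    have h := zr_pt ℂ hx
    rwa [Algebra.algebraMap_self, MvPolynomial.map_id] at h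
  have h1 := congrArg (PowerSeries.map E) (rel_local M _ hL f (constr_pt' ℂ x) hzr)
  rw [w0_pt, ← hz, ← hz] at h1
  have hw : wt M f {pt ℂ x} = 1 := by
    have h2 : (Tl f {pt ℂ x} 0 0 : Set (Pt ℂ (Fin n × Fin (0 + 1)))) =
        {fun p => algebraMap ℂ (AlgebraicClosure ℂ) (x p.1)} := by
      ext z
      simp only [Tl, Set.mem_ofPred_eq, Set.mem_singleton_iff, Nat.not_lt_zero,
        IsEmpty.forall_iff, implies_true, and_true]
      constructor
      · intro h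
        funext p
        obtain ⟨i, j⟩ := p
        obtain rfl : j = 0 := Fin.ext (by have := j.2; simp only [Fin.val_zero]; omega)
        exact congrFun h i
      · intro h
        funext i
        exact congrFun h (i, 0)
    rw [wt, h2, chi_single]
  rw [hw, hML] at h1
  simp only [map_mul, map_pow, map_sub, map_one, map_rescale, PowerSeries.map_X, map_add,
    PowerSeries.map_C] at h1
  have h2 := specAt_step (u := Units.map (E : MK ℂ →* R) (Lu ℂ)) (ε := ε) hε hE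
    (φ := 1) (m := 2) (by
      simp only [map_mul, map_pow, map_sub, map_one]
      exact h1) hc
  rwa [map_one] at h2

theorem top_addyzL [IsDomain R] (hε : ε (E ((Lu ℂ : (MK ℂ)ˣ) : MK ℂ)) = 1)
    (hE : E ((Lu ℂ : (MK ℂ)ˣ) : MK ℂ) ≠ 1) {f : MvPolynomial (Fin n) ℂ} {x : Fin n → ℂ}
    (hx : eval x f = 0) {Z : RatFunc ℂ} (h : IsTopZeta E ε (zetaG f {pt ℂ x} {c | c ≠ 0}) Z) :
    IsTopZeta E ε (zetaG (addyz f) {pt ℂ (ex0 x)} {c | c ≠ 0}) (stp 1 Z) := by
  intro s hs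
  obtain ⟨c, h1, h2⟩ := h (s + 1) (Nat.succ_pos s)
  exact ⟨_, topZeta_stepL hε hE f hx s c h1, val_stp 1 h2⟩

theorem eval_exI (f : MvPolynomial (Fin n) ℂ) (x : Fin n → ℂ) :
    ∀ κ : ℕ, eval (exI x κ) (itr f κ) = eval x f
  | 0 => rfl
  | κ + 1 => (eval_ex0 (exI x κ) (itr f κ)).trans (eval_exI f x κ)

theorem top_itrL [IsDomain R] (hε : ε (E ((Lu ℂ : (MK ℂ)ˣ) : MK ℂ)) = 1)
    (hE : E ((Lu ℂ : (MK ℂ)ˣ) : MK ℂ) ≠ 1) {f : MvPolynomial (Fin n) ℂ} {x : Fin n → ℂ}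
    (hx : eval x f = 0) {Z : RatFunc ℂ} (h : IsTopZeta E ε (zetaG f {pt ℂ x} {c | c ≠ 0}) Z) :
    ∀ κ : ℕ, IsTopZeta E ε (zetaG (itr f κ) {pt ℂ (exI x κ)} {c | c ≠ 0}) (stpK 1 κ Z)
  | 0 => by
    rw [stpK_zero]
    exact h
  | κ + 1 => by
    rw [← stpK_succ]
    exact top_addyzL hε hE (by rw [eval_exI, hx]) (top_itrL hε hE hx h κ)

theorem map_self {n : ℕ} (f : MvPolynomial (Fin n) ℂ) : map (algebraMap ℂ ℂ) f = f := by
  rw [Algebra.algebraMap_self, MvPolynomial.map_id]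

/-- the local functional equation of `f + y z` -/
theorem loc_addyz {f : MvPolynomial (Fin n) ℂ} {x : Fin n → ℂ} (hf : f ≠ 0) (hx : eval x f = 0)
    {c : Polynomial ℂ} (hc : IsLocalBFunction (trans x f) ((Polynomial.X + 1) * c)) :
    IsLocalBFunction (trans (ex0 x) (addyz f))
      ((Polynomial.X + 1) * c.comp (Polynomial.X + Polynomial.C 1)) := by
  set F := trans x f with hF
  have hF1 : F ≠ 0 := trans_ne hf
  have hF2 : constantCoeff F = 0 := by rw [hF, const_trans, hx]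
  have h1 := (Pool.Agent.X271.MG.loc_becomes (κ := 1) (G := AlgEquiv.refl
    (Pool.Agent.Y229.RE.stab F 1)) hF1 hF2 hc
    (Pool.Agent.X271.MG.becomes_of_aut (κ := 1) F AlgEquiv.refl (fun i => constantCoeff_X ℂ i))).2
    c rfl
  have h2 : (AlgEquiv.refl (R := ℂ) (Pool.Agent.Y229.RE.stab F 1)) =
      trans (ex0 x) (addyz f) := by
    rw [trans_addyz]
    exact Pool.Agent.X271.LR.stab_one F
  rw [h2, Nat.cast_one] at h1
  exact h1

theorem itr_ne {f : MvPolynomial (Fin n) ℂ} (hf : f ≠ 0) : ∀ κ : ℕ, itr f κ ≠ 0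
  | 0 => hf
  | κ + 1 => addyz_ne (itr f κ)

theorem loc_itr {f : MvPolynomial (Fin n) ℂ} {x : Fin n → ℂ} (hf : f ≠ 0) (hx : eval x f = 0)
    {c : Polynomial ℂ} (hc : IsLocalBFunction (trans x f) ((Polynomial.X + 1) * c)) :
    ∀ κ : ℕ, IsLocalBFunction (trans (exI x κ) (itr f κ))
      ((Polynomial.X + 1) * c.comp (Polynomial.X + Polynomial.C (κ : ℂ)))
  | 0 => by
    rw [Nat.cast_zero, Polynomial.C_0, add_zero, Polynomial.comp_X]
    exact hc
  | κ + 1 => by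
    have h1 := loc_addyz (itr_ne hf κ) (by rw [eval_exI, hx]) (loc_itr hf hx hc κ)
    have h2 : (c.comp (Polynomial.X + Polynomial.C (κ : ℂ))).comp
        (Polynomial.X + Polynomial.C 1) =
        c.comp (Polynomial.X + Polynomial.C ((κ + 1 : ℕ) : ℂ)) := by
      rw [Polynomial.comp_assoc]
      congr 1
      simp only [Polynomial.add_comp, Polynomial.X_comp, Polynomial.C_comp, Nat.cast_succ,
        Polynomial.C_add]
      ring
    rw [h2] at h1
    exact h1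

/-- `b(-1) = 0` -/
theorem loc_div {f : MvPolynomial (Fin n) ℂ} {x : Fin n → ℂ} (hf : f ≠ 0) (hx : eval x f = 0)
    {b : Polynomial ℂ} (hb : IsLocalBFunction (trans x f) b) :
    ∃ c, b = (Polynomial.X + 1) * c := by
  have h1 := (Pool.Agent.X271.LR.rootL_of_red (P := x) hf hx (by rw [map_self]; exact hb)).1
  have h2 : (Polynomial.X + 1 : Polynomial ℂ) ∣ b := by
    have := Polynomial.dvd_iff_isRoot.2 h1
    simpa using this
  exact h2

theorem eval_imP {a b : ℕ} (Φ : MvPolynomial (Fin a) ℂ ≃ₐ[ℂ] MvPolynomial (Fin b) ℂ)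
    (x : Fin a → ℂ) (g : MvPolynomial (Fin a) ℂ) : eval (imP Φ x) (Φ g) = eval x g :=
  Pool.Agent.X271.LR.eval_im' Φ x g

/-- isomorphisms and the zeta functions at points -/
theorem zetaG_isoL {a b : ℕ} (hab : a = b)
    (Φ : MvPolynomial (Fin a) ℂ ≃ₐ[ℂ] MvPolynomial (Fin b) ℂ) (g : MvPolynomial (Fin a) ℂ)
    (x : Fin a → ℂ) :
    zetaG (Φ g) {pt ℂ (imP Φ x)} {c | c ≠ 0} = zetaG g {pt ℂ x} {c | c ≠ 0} := by
  have h1 := zeta_iso Pool.Agent.Z864.MS.three hab Φ g (constr_pt' ℂ x)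
    (E := {c | c ≠ 0}) (ce_good good_units)
  rw [← h1]
  congr 1
  have hpt : ∀ {m : ℕ} (y : Fin m → ℂ) (p : MvPolynomial (Fin m) ℂ),
      aeval (pt ℂ y) p = algebraMap ℂ (AlgebraicClosure ℂ) (eval y p) := by
    intro m y p
    have h := aeval_pt ℂ y p
    rwa [map_self] at h
  ext w
  simp only [Set.mem_ofPred_eq, Set.mem_singleton_iff]
  constructor
  · rintro rfl
    funext i
    rw [hpt, eval_imP, eval_X]
    rfl
  · intro hw
    have h3 : ∀ p : MvPolynomial (Fin a) ℂ, aeval w (Φ p) = aeval (pt ℂ x) p := by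
      intro p
      induction p using MvPolynomial.induction_on with
      | C c =>
        have e1 : Φ (C c) = C c := by
          rw [← algebraMap_eq, AlgEquiv.commutes, algebraMap_eq]
        rw [e1, ← algebraMap_eq, AlgHom.commutes, ← algebraMap_eq, AlgHom.commutes]
      | add p q hp hq => rw [map_add, map_add, hp, hq, map_add]
      | mul_X p i hp =>
        rw [map_mul, map_mul, hp, map_mul, aeval_X]
        rw [← congrFun hw i]
    funext j
    have h4 := h3 (Φ.symm (X j))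
    rw [AlgEquiv.apply_symm_apply, aeval_X, hpt] at h4
    exact h4

theorem topL_iso {P : RatFunc ℂ → Polynomial ℂ → Prop} {a b : ℕ} (hab : a = b)
    (Φ : MvPolynomial (Fin a) ℂ ≃ₐ[ℂ] MvPolynomial (Fin b) ℂ) {g : MvPolynomial (Fin a) ℂ}
    (hg : g ≠ 0) {x : Fin a → ℂ} (hx : eval x g = 0) (h : TopL E ε P (Φ g) (imP Φ x)) :
    TopL E ε P g x := by
  subst hab
  intro Z hZ b hb
  obtain ⟨c, rfl⟩ := loc_div hg hx hb
  refine h Z ?_ _ ?_
  · rw [zetaM_eq, zetaG_isoL rfl Φ, ← zetaM_eq]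
    exact hZ
  set ψ : MvPolynomial (Fin a) ℂ ≃ₐ[ℂ] MvPolynomial (Fin a) ℂ :=
    ((transE x).symm.trans Φ).trans (transE (imP Φ x)) with hψ
  have h1 : ψ (trans x g) = trans (imP Φ x) (Φ g) := by
    show transE (imP Φ x) (Φ ((transE x).symm (transE x g))) = _
    rw [AlgEquiv.symm_apply_apply]
    rfl
  have h2 : ∀ i, constantCoeff (ψ (X i)) = 0 := by
    intro i
    show constantCoeff (trans (imP Φ x) (Φ ((transE x).symm (X i)))) = 0
    rw [const_trans, eval_imP]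
    have h3 : (transE x).symm (X i) = trans (fun i => -x i) (X i) := rfl
    rw [h3, trans_X, map_add, eval_X, eval_C, add_neg_cancel]
  rw [← h1]
  refine loc_iso (trans_ne hg) ?_ ψ h2 hb
  rw [const_trans, hx]

/-- **Transfer.** -/
theorem transferL [IsDomain R] (hε : ε (E ((Lu ℂ : (MK ℂ)ˣ) : MK ℂ)) = 1)
    (hE : E ((Lu ℂ : (MK ℂ)ˣ) : MK ℂ) ≠ 1) {P : RatFunc ℂ → Polynomial ℂ → Prop} {κ : ℕ}
    (hP : Desc κ P) {f : MvPolynomial (Fin n) ℂ} (hf : f ≠ 0) {x : Fin n → ℂ} (hx : eval x f = 0)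
    {m : ℕ} (hm : n + 2 * κ = m)
    (Φ : MvPolynomial (Fin (n + 2 * κ)) ℂ ≃ₐ[ℂ] MvPolynomial (Fin m) ℂ)
    (h : TopL E ε P (Φ (itr f κ)) (imP Φ (exI x κ))) : TopL E ε P f x := by
  have h0 := topL_iso hm Φ (itr_ne hf κ) (by rw [eval_exI, hx]) h
  intro Z hZ b hb
  obtain ⟨c, rfl⟩ := loc_div hf hx hb
  rw [zetaM_eq] at hZ
  refine hP Z c (reg_of_top hZ) (h0 _ ?_ _ (loc_itr hf hx hb κ))
  rw [zetaM_eq]
  exact top_itrL hε hE hx hZ κ

/-- **Reduction to cubics**, local version. -/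
theorem cubicsL [IsDomain R] (hε : ε (E ((Lu ℂ : (MK ℂ)ˣ) : MK ℂ)) = 1)
    (hE : E ((Lu ℂ : (MK ℂ)ˣ) : MK ℂ) ≠ 1) {P : RatFunc ℂ → Polynomial ℂ → Prop}
    (hP : ∀ κ, 2 ≤ κ → Desc κ P) (k : Type) [Field k] [Algebra k ℂ] :
    (∀ (n : ℕ) (f : MvPolynomial (Fin n) k), f ≠ 0 → ∀ x : Fin n → ℂ,
      eval x (map (algebraMap k ℂ) f) = 0 → TopL E ε P (map (algebraMap k ℂ) f) x) ↔
    ∀ (n l : ℕ) (q : Fin l → MvPolynomial (Fin (n + 1)) k), (∀ j, (q j).totalDegree ≤ 2) →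
      ∀ x : Fin (n + 1 + l) → ℂ, eval x (map (algebraMap k ℂ) (cubic q)) = 0 →
        TopL E ε P (map (algebraMap k ℂ) (cubic q)) x := by
  constructor
  · intro h n l q _ x hx
    refine h _ _ (fun h0 => Pool.Agent.X271.RC.cubic_deg q ?_) x hx
    rw [h0, totalDegree_zero]
  · intro h n f hf x hx
    have hf' : map (algebraMap k ℂ) f ≠ 0 := fun h0 => hf
      (map_injective _ (algebraMap k ℂ).injective (by rw [map_zero]; exact h0))
    obtain ⟨m, hm, -, n2, l2, q2, hq2, hn2, Φ2, hΦ2⟩ := Pool.Agent.X271.RC.universal f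
    obtain ⟨ψ2, hψ2⟩ := Pool.Agent.Y405.MS.bc k ℂ Φ2
    have h3 : ψ2 (itr (map (algebraMap k ℂ) f) (m + 1)) = map (algebraMap k ℂ) (cubic q2) := by
      rw [← map_itr, hψ2, hΦ2]
    refine transferL hε hE (hP (m + 1) (by omega)) hf' hx hn2 ψ2 ?_
    rw [h3]
    refine h _ _ _ hq2 _ ?_
    rw [← h3, eval_imP, eval_exI, hx]

end

end Pool.Agent.X159.TZ
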