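import Pool.Agent.X159.TZ.RDefs
import Pool.Agent.TH192.MU.WDefs
import Pool.Agent.H628R4.TP.Defs

set_option autoImplicit false

/-! # Twisted topological zeta functions and `b`-functions: definitions -/

namespace Pool.Agent.X159.TZ

open Pool.Agent.W428.MOT Pool.Agent.TH192.MU

/-- the property `P` of the twisted topological zeta functions for the integer `e` and the `b`-functions
of `f` -/
def TwP {R : Type} [CommRing R] (E : MK ℂ →+* R) (ε : R →+* ℂ) (e : ℕ)
    (P : RatFunc ℂ → Polynomial ℂ → Prop) {n : ℕ} (f : MvPolynomial (Fin n) ℂ) : Prop :=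
  ∀ Z : RatFunc ℂ, IsTwistedTop E ε f e Z →
    ∀ b : Polynomial ℂ, Pool.Agent.H628R4.TP.IsBFunction f b → P Z b

end Pool.Agent.X159.TZ
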