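import Pool.Agent.X159.TZ.Cov
import Pool.Agent.X159.TZ.Val
import Pool.Agent.X159.TZ.Glob
import Pool.Agent.X159.TZ.TwDefs

set_option autoImplicit false

/-! # The twisted topological zeta functions of `f + y z` -/

namespace Pool.Agent.X159.TZ

open MvPolynomial Pool.Agent.W428.MOT Pool.Agent.Y229.MS Pool.Agent.TH192.MU
open Pool.Agent.W375.MG (JetG zetaG good_units)
open Pool.Agent.W63.MTFin (mapMeas L_mul)
open Pool.Agent.Z864.MS (Tm isPF_Tm coeff_Tm Tm_Tm)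

/-! ### specialisations -/

section spec
variable {R : Type} [CommRing R] [IsDomain R] {u : Rˣ} {ε : R →+* ℂ}

omit [IsDomain R] in
theorem specAt_resc {Z' V : PowerSeries R} (h : PowerSeries.rescale (u : R) Z' = V) {s : ℕ} {c : ℂ}
    (hc : SpecAt u ε V (s + 1) c) : SpecAt u ε Z' s c := by
  obtain ⟨P, Q, x, y, hP, hQ, hx, hy, hxy⟩ := hc
  set v : R := ((u⁻¹ : Rˣ) : R) with hv
  have hvu : v * (u : R) = 1 := Units.inv_mul u
  have hval : (((u⁻¹) ^ s : Rˣ) : R) = v ^ s := by rw [Units.val_pow_eq_pow_val]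
  have hval' : (((u⁻¹) ^ (s + 1) : Rˣ) : R) = v ^ (s + 1) := by rw [Units.val_pow_eq_pow_val]
  rw [hval'] at hQ hx
  have h' : Z' = PowerSeries.rescale v V := by
    rw [← h, PowerSeries.rescale_rescale, mul_comm (u : R) v, hvu, PowerSeries.rescale_one,
      RingHom.id_apply]
  refine ⟨P.comp (Polynomial.C v * Polynomial.X), Q.comp (Polynomial.C v * Polynomial.X), x, y,
    ?_, ?_, ?_, hy, hxy⟩
  · rw [coe_comp, coe_comp, h', ← map_mul, hP]
  · rw [hval]
    simp only [Polynomial.eval_mul, Polynomial.eval_C, Polynomial.eval_X, Polynomial.eval_comp]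
    rwa [← pow_succ']
  · rw [hval]
    simp only [Polynomial.eval_mul, Polynomial.eval_C, Polynomial.eval_X, Polynomial.eval_comp]
    rwa [← pow_succ']

theorem specAt_div (h1 : ε (u : R) = 1) (hu : (u : R) ≠ 1) {W V : PowerSeries R}
    (h : (1 - PowerSeries.X) ^ 2 * W = PowerSeries.C (((u : R) - 1) ^ 2) * V) {s : ℕ} (hs : s ≠ 0)
    {c : ℂ} (hc : SpecAt u ε V s c) : SpecAt u ε W s (c / (s : ℂ) ^ 2) := by
  obtain ⟨P, Q, x, y, hP, hQ, hx, hy, hxy⟩ := hc
  set v : R := ((u⁻¹ : Rˣ) : R) with hv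
  have hval : (((u⁻¹) ^ s : Rˣ) : R) = v ^ s := by rw [Units.val_pow_eq_pow_val]
  rw [hval] at hQ hx
  have hs' : (s : ℂ) ≠ 0 := by exact_mod_cast hs
  refine ⟨Polynomial.C (((u : R) - 1) ^ 2) * P, (1 - Polynomial.X) ^ 2 * Q, x,
    gk u s ^ 2 * y, ?_, ?_, ?_, ?_, ?_⟩
  · simp only [Polynomial.coe_mul, Polynomial.coe_sub, Polynomial.coe_pow,
      Polynomial.coe_one, Polynomial.coe_C, Polynomial.coe_X]
    linear_combination (Q : PowerSeries R) * h + PowerSeries.C (((u : R) - 1) ^ 2) * hP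
  · rw [hval]
    simp only [Polynomial.eval_mul, Polynomial.eval_pow, Polynomial.eval_sub, Polynomial.eval_one,
      Polynomial.eval_X]
    exact mul_ne_zero (pow_ne_zero _ (one_sub_ne h1 hu hs)) hQ
  · rw [hval]
    simp only [Polynomial.eval_mul, Polynomial.eval_pow, Polynomial.eval_sub, Polynomial.eval_one,
      Polynomial.eval_X, Polynomial.eval_C]
    have e1 := gk_mul u s
    rw [← hv] at e1
    rw [← e1]
    linear_combination (((u : R) - 1) ^ 2 * gk u s ^ 2) * hx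
  · rw [map_mul, map_pow, eps_gk h1]
    exact mul_ne_zero (pow_ne_zero _ hs') hy
  · rw [map_mul, map_pow, eps_gk h1, hxy]
    field_simp

end spec

/-! ### the series of the covers -/

section rel
variable {K : Type} [Field K] {n : ℕ} {R : Type} [CommRing R]

/-- the series of the covers, `d ≥ 1` -/
noncomputable def zc (M : Meas K R) (Y : R) (f : MvPolynomial (Fin n) K) (k : ℕ) : PowerSeries R :=
  PowerSeries.mk fun d => if d = 0 then 0 else M.χ _ (JC f k d) * Y ^ (n * d)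

theorem rel_cov (M : Meas K R) (Y : R) (hL : M.L * Y = 1) (f : MvPolynomial (Fin n) K) (k : ℕ) :
    PowerSeries.rescale M.L (zc M Y (addyz f) k) = PowerSeries.C M.L * zc M Y f k +
      PowerSeries.C ((M.L - 1) ^ 2) *
        (psum (phiS M Y f Set.univ) - PowerSeries.C (wt M f Set.univ)) := by
  ext N
  rw [PowerSeries.coeff_rescale, map_add, PowerSeries.coeff_C_mul, PowerSeries.coeff_C_mul,
    map_sub, zc, zc, Pool.Agent.Y229.MS.psum, PowerSeries.coeff_mk, PowerSeries.coeff_mk, PowerSeries.coeff_mk,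
    PowerSeries.coeff_C]
  rcases Nat.eq_zero_or_pos N with rfl | hN
  · rw [if_pos rfl, if_pos rfl, if_pos rfl, Finset.sum_range_one, phiS, PowerSeries.coeff_mk, wt]
    simp
  · rw [if_neg (by omega), if_neg (by omega), if_neg (by omega), coverC M f k]
    have h3 : ∑ i ∈ Finset.range (N + 1), PowerSeries.coeff i (phiS M Y f Set.univ) =
        (∑ i ∈ Finset.range (N + 1), M.χ _ (Tl f Set.univ i N)) * Y ^ (n * N) := by
      rw [Finset.sum_mul]
      refine Finset.sum_congr rfl fun i hi => ?_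
      rw [phiS, PowerSeries.coeff_mk, phi_level' Pool.Agent.Y812.MS.two M Y hL f Set.univ
        Constr.univ i N (Nat.lt_succ_iff.1 (Finset.mem_range.1 hi))]
    rw [h3]
    have h4 : M.L ^ N * Y ^ N = 1 := by rw [← mul_pow, hL, one_pow]
    have h5 : Y ^ ((n + 2) * N) = Y ^ (n * N) * (Y ^ N * Y ^ N) := by
      rw [← pow_add, ← pow_add]
      congr 1
      ring
    rw [h5, pow_succ]
    set A := M.χ _ (JC f k N)
    set B := ∑ i ∈ Finset.range (N + 1), M.χ _ (Tl f Set.univ i N)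
    linear_combination ((A * M.L + (M.L - 1) ^ 2 * B) * Y ^ (n * N) *
      (M.L ^ N * Y ^ N + 1)) * h4

/-- the cover for `k = 1` -/
theorem chi_JC_one (M : Meas K R) (f : MvPolynomial (Fin n) K) (N : ℕ) :
    M.χ _ (JC f 1 N) = M.χ _ (JetG f Set.univ {a | a ≠ 0} N) := by
  have hF : IsPF (fun z : Pt K (Fin n × Fin (N + 1)) =>
      PowerSeries.coeff N (aeval (arc z) f)) :=
    IsPA.aeval (fun i z => arc z i) (fun i => isPA_arc i) f N
  refine M.iso _ _ (constr_JC f 1 N) (Pool.Agent.Y971.MS.constr_jet f Constr.univ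
    (ce_good good_units) N) jt
    (fun z => Sum.elim (fun _ => PowerSeries.coeff N (aeval (arc z) f)) z)
    (regularOn_poly (fun _ => IsPF.coord _) _) (regularOn_poly ?_ _) ?_ ?_ ?_ ?_
  · rintro (_ | p)
    · exact hF
    · exact IsPF.coord _
  · rintro z ⟨h1, h2, h3, h4⟩
    refine ⟨h2, h3, ?_⟩
    simp only [Set.mem_ofPred_eq, pow_one] at h4 ⊢
    rw [h4]
    exact h1
  · rintro z ⟨h1, h2, h3⟩
    refine ⟨h3, h1, h2, ?_⟩
    simp only [Set.mem_ofPred_eq, pow_one]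
    rfl
  · rintro z ⟨h1, h2, h3, h4⟩
    simp only [Set.mem_ofPred_eq, pow_one] at h4
    funext p
    rcases p with (_ | p)
    · exact h4
    · rfl
  · intro z _
    rfl

theorem zs_zc (M : Meas K R) (Y : R) (f : MvPolynomial (Fin n) K) :
    zs M Y f Set.univ {a | a ≠ 0} = zc M Y f 1 +
      PowerSeries.C (M.χ _ (JetG f Set.univ {a | a ≠ 0} 0)) := by
  ext N
  rw [map_add, zs, zc, PowerSeries.coeff_mk, PowerSeries.coeff_mk, PowerSeries.coeff_C]
  rcases Nat.eq_zero_or_pos N with rfl | hN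
  · rw [if_pos rfl, if_pos rfl, mul_zero, pow_zero, mul_one]
    exact (zero_add _).symm
  · rw [if_neg (by omega), if_neg (by omega), add_zero, chi_JC_one]

/-- isomorphisms and the covers -/
theorem chi_JC_iso (M : Meas K R) {a b : ℕ}
    (ψ : MvPolynomial (Fin a) K ≃ₐ[K] MvPolynomial (Fin b) K) (f : MvPolynomial (Fin a) K)
    (k N : ℕ) : M.χ _ (JC (ψ f) k N) = M.χ _ (JC f k N) := by
  have h1 : ∀ g, (ψ : MvPolynomial (Fin a) K →ₐ[K] MvPolynomial (Fin b) K)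
      ((ψ.symm : MvPolynomial (Fin b) K →ₐ[K] MvPolynomial (Fin a) K) g) = g :=
    fun g => ψ.apply_symm_apply g
  have h2 : ∀ g, (ψ.symm : MvPolynomial (Fin b) K →ₐ[K] MvPolynomial (Fin a) K)
      ((ψ : MvPolynomial (Fin a) K →ₐ[K] MvPolynomial (Fin b) K) g) = g :=
    fun g => ψ.symm_apply_apply g
  refine M.iso _ _ (constr_JC _ k N) (constr_JC f k N)
    (fun z => Sum.elim (fun _ => wc z)
      (Tm (ψ : MvPolynomial (Fin a) K →ₐ[K] MvPolynomial (Fin b) K) N (jt z)))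
    (fun z => Sum.elim (fun _ => wc z)
      (Tm (ψ.symm : MvPolynomial (Fin b) K →ₐ[K] MvPolynomial (Fin a) K) N (jt z)))
    (regularOn_poly ?_ _) (regularOn_poly ?_ _) ?_ ?_ ?_ ?_
  · rintro (_ | p)
    · exact IsPF.coord _
    · exact isPF_jt (isPF_Tm _ p)
  · rintro (_ | p)
    · exact IsPF.coord _
    · exact isPF_jt (isPF_Tm _ p)
  · rintro z ⟨g0, -, g2, g3⟩
    refine ⟨g0, Set.mem_univ _, fun j hj => ?_, ?_⟩
    · exact (coeff_Tm _ (jt z) f j hj.le).trans (g2 j hj)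
    · exact (coeff_Tm _ (jt z) f N le_rfl).trans g3
  · rintro z ⟨g0, -, g2, g3⟩
    have e3 : (ψ.symm : MvPolynomial (Fin b) K →ₐ[K] MvPolynomial (Fin a) K) (ψ f) = f :=
      ψ.symm_apply_apply f
    refine ⟨g0, Set.mem_univ _, fun j hj => ?_, ?_⟩
    · refine (coeff_Tm _ (jt z) (ψ f) j hj.le).trans ?_
      rw [e3]
      exact g2 j hj
    · refine (coeff_Tm _ (jt z) (ψ f) N le_rfl).trans ?_
      rw [e3]
      exact g3
  · intro z _
    funext p
    rcases p with (_ | p)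
    · rfl
    · exact congrFun (Tm_Tm _ _ h1 (jt z)) p
  · intro z _
    funext p
    rcases p with (_ | p)
    · rfl
    · exact congrFun (Tm_Tm _ _ h2 (jt z)) p

end rel

/-! ### the twisted zeta functions -/

section tw
variable {R : Type} [CommRing R] {E : MK ℂ →+* R} {ε : R →+* ℂ} {n : ℕ}

/-- the Grothendieck measure, with the covers -/
theorem exists_measC : ∃ M : Meas ℂ (MK ℂ),
    M.L = ((Lu ℂ : (MK ℂ)ˣ) : MK ℂ) ∧ M.L * (((Lu ℂ)⁻¹ : (MK ℂ)ˣ) : MK ℂ) = 1 ∧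
    (∀ {a : ℕ} (g : MvPolynomial (Fin a) ℂ) (V : Set (Pt ℂ (Fin a)))
      (A : Set (AlgebraicClosure ℂ)),
      zetaG g V A = zs M (((Lu ℂ)⁻¹ : (MK ℂ)ˣ) : MK ℂ) g V A) ∧
    ∀ {a : ℕ} (g : MvPolynomial (Fin a) ℂ) (k : ℕ),
      zetaC g k = zc M (((Lu ℂ)⁻¹ : (MK ℂ)ˣ) : MK ℂ) g k := by
  obtain ⟨M₀, hM₀⟩ := Pool.Agent.W417.MT.K0.main ℂ
  refine ⟨mapMeas M₀ (algebraMap (K0 ℂ) (MK ℂ)), ?_, L_mul hM₀, ?_, ?_⟩
  · have hL := L_mul hM₀
    set Y : MK ℂ := (((Lu ℂ)⁻¹ : (MK ℂ)ˣ) : MK ℂ) with hY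
    have h2 : ((Lu ℂ : (MK ℂ)ˣ) : MK ℂ) * Y = 1 := Units.mul_inv _
    calc (mapMeas M₀ (algebraMap (K0 ℂ) (MK ℂ))).L
        = (mapMeas M₀ (algebraMap (K0 ℂ) (MK ℂ))).L * (((Lu ℂ : (MK ℂ)ˣ) : MK ℂ) * Y) := by
          rw [h2, mul_one]
      _ = ((mapMeas M₀ (algebraMap (K0 ℂ) (MK ℂ))).L * Y) * ((Lu ℂ : (MK ℂ)ˣ) : MK ℂ) := by ring
      _ = _ := by rw [hL, one_mul]
  · intro a g V A
    ext N
    rw [zetaG, zs, PowerSeries.coeff_mk, PowerSeries.coeff_mk, zpow_neg, zpow_natCast, ← inv_pow,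
      Units.val_pow_eq_pow_val, ← hM₀]
    rfl
  · intro a g k
    ext N
    rw [zetaC, zc, PowerSeries.coeff_mk, PowerSeries.coeff_mk]
    split_ifs with h
    · rfl
    · rw [zpow_neg, zpow_natCast, ← inv_pow, Units.val_pow_eq_pow_val, ← hM₀, Fintype.card_fin]
      rfl

/-- the Euler characteristic of the zero set -/
noncomputable def chi0 (E : MK ℂ →+* R) (ε : R →+* ℂ) (f : MvPolynomial (Fin n) ℂ) : ℂ :=
  ε (E (PowerSeries.coeff 0 (zetaG f Set.univ {c | c ≠ 0})))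

theorem top_of_twist [IsDomain R] {f : MvPolynomial (Fin n) ℂ} {Z : RatFunc ℂ}
    (h : IsTopZeta E ε (zetaC f 1) Z) :
    IsTopZeta E ε (zetaG f Set.univ {c | c ≠ 0}) (Z + al (Polynomial.C (chi0 E ε f))) := by
  obtain ⟨M, hML, hL, hz, hzc⟩ := exists_measC
  have h0 : zetaG f Set.univ {c | c ≠ 0} = zetaC f 1 +
      PowerSeries.C (PowerSeries.coeff 0 (zetaG f Set.univ {c | c ≠ 0})) := by
    have h1 := zs_zc M (((Lu ℂ)⁻¹ : (MK ℂ)ˣ) : MK ℂ) f
    rw [← hz, ← hzc] at h1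
    have h2 : PowerSeries.coeff 0 (zetaG f Set.univ {c | c ≠ 0}) =
        M.χ _ (JetG f Set.univ {a | a ≠ 0} 0) := by
      rw [hz, zs, PowerSeries.coeff_mk, mul_zero, pow_zero, mul_one]
    rw [h2]
    exact h1
  intro s hs
  obtain ⟨c, h1, h2⟩ := h s hs
  refine ⟨c + chi0 E ε f, ?_, ?_⟩
  · rw [h0, map_add, PowerSeries.map_C]
    exact specAt_add h1 (specAt_C _ _)
  · have h3 := val_add (s := (s : ℂ)) h2 (val_al (s : ℂ) (Polynomial.C (chi0 E ε f)))
    rw [Polynomial.eval_C] at h3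
    exact h3

theorem twist_of_top [IsDomain R] {f : MvPolynomial (Fin n) ℂ} {Z : RatFunc ℂ}
    (h : IsTopZeta E ε (zetaG f Set.univ {c | c ≠ 0}) Z) :
    IsTopZeta E ε (zetaC f 1) (Z + al (Polynomial.C (-chi0 E ε f))) := by
  obtain ⟨M, hML, hL, hz, hzc⟩ := exists_measC
  have h0 : zetaC f 1 = zetaG f Set.univ {c | c ≠ 0} +
      PowerSeries.C (-PowerSeries.coeff 0 (zetaG f Set.univ {c | c ≠ 0})) := by
    have h1 := zs_zc M (((Lu ℂ)⁻¹ : (MK ℂ)ˣ) : MK ℂ) f
    rw [← hz, ← hzc] at h1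
    have h2 : PowerSeries.coeff 0 (zetaG f Set.univ {c | c ≠ 0}) =
        M.χ _ (JetG f Set.univ {a | a ≠ 0} 0) := by
      rw [hz, zs, PowerSeries.coeff_mk, mul_zero, pow_zero, mul_one]
    rw [h2, h1, map_neg]
    ring
  intro s hs
  obtain ⟨c, h1, h2⟩ := h s hs
  refine ⟨c + -chi0 E ε f, ?_, ?_⟩
  · rw [h0, map_add, PowerSeries.map_C]
    refine specAt_add h1 ?_
    have h3 := specAt_C (u := Units.map (E : MK ℂ →* R) (Lu ℂ)) (ε := ε)
      (E (-PowerSeries.coeff 0 (zetaG f Set.univ {c | c ≠ 0}))) s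
    have h4 : ε (E (-PowerSeries.coeff 0 (zetaG f Set.univ {c | c ≠ 0}))) = -chi0 E ε f := by
      rw [map_neg, map_neg]
      rfl
    rw [h4] at h3
    exact h3
  · have h3 := val_add (s := (s : ℂ)) h2 (val_al (s : ℂ) (Polynomial.C (-chi0 E ε f)))
    rw [Polynomial.eval_C] at h3
    exact h3

/-- **One step.** -/
theorem twist_step [IsDomain R] (hε : ε (E ((Lu ℂ : (MK ℂ)ˣ) : MK ℂ)) = 1)
    (hE : E ((Lu ℂ : (MK ℂ)ˣ) : MK ℂ) ≠ 1) (f : MvPolynomial (Fin n) ℂ) {Y1 Yk : RatFunc ℂ}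
    {k : ℕ} (h1 : IsTopZeta E ε (zetaC f 1) Y1) (hk : IsTopZeta E ε (zetaC f k) Yk) :
    IsTopZeta E ε (zetaC (addyz f) k) (sh 1 Yk +
      (al (Polynomial.C (1 - chi0 E ε f)) + al (Polynomial.C (-1)) * sh 1 Y1) /
        al ((Polynomial.X + 1) ^ 2)) := by
  intro s hs
  obtain ⟨M, hML, hL, hz, hzc⟩ := exists_measC
  obtain ⟨c1, hc1, hv1⟩ := top_of_twist h1 (s + 1) (Nat.succ_pos s)
  obtain ⟨ck, hck, hvk⟩ := hk (s + 1) (Nat.succ_pos s)
  obtain ⟨c1', hc1', hv1'⟩ := h1 (s + 1) (Nat.succ_pos s)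
  set u : Rˣ := Units.map (E : MK ℂ →* R) (Lu ℂ) with hu
  have hεu : ε (u : R) = 1 := hε
  have huE : (u : R) ≠ 1 := hE
  have hs1 : ((s : ℂ) + 1) ≠ 0 := by exact_mod_cast Nat.succ_ne_zero s
  -- the class of the affine space
  have hw : wt M f Set.univ = ((Lu ℂ : (MK ℂ)ˣ) : MK ℂ) ^ n := by
    have h2 : (Tl f Set.univ 0 0 : Set (Pt ℂ (Fin n × Fin (0 + 1)))) = Set.univ := by
      ext z
      simp only [Tl, Set.mem_ofPred_eq, Set.mem_univ, true_and, iff_true]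
      intro j hj
      exact absurd hj (Nat.not_lt_zero _)
    rw [wt, h2, chi_univ, hML, Fintype.card_prod, Fintype.card_fin, Fintype.card_fin]
    simp
  set ω : R := E (wt M f Set.univ) with hω
  have hεω : ε ω = 1 := by rw [hω, hw, map_pow, map_pow, hε, one_pow]
  -- the value of the second summand
  have hrel := congrArg (PowerSeries.map E) (rel_cov M _ hL f k)
  rw [← hzc, ← hzc] at hrel
  set W : PowerSeries (MK ℂ) := PowerSeries.C ((M.L - 1) ^ 2) *
    (Pool.Agent.Y229.MS.psum (phiS M (((Lu ℂ)⁻¹ : (MK ℂ)ˣ) : MK ℂ) f Set.univ) -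
      PowerSeries.C (wt M f Set.univ)) with hW
  have hW2 : (1 - PowerSeries.X) ^ 2 * W = PowerSeries.C ((M.L - 1) ^ 2) *
      (PowerSeries.C (wt M f Set.univ) + (PowerSeries.C (-1) * (PowerSeries.X *
        zetaG f Set.univ {c | c ≠ 0}) + PowerSeries.C (-1) * ((PowerSeries.C 1 +
          PowerSeries.C (-1) * PowerSeries.X) * (PowerSeries.C 1 +
          PowerSeries.C (-1) * PowerSeries.X) * PowerSeries.C (wt M f Set.univ)))) := by
    have h2 := psum_mul (phiS M (((Lu ℂ)⁻¹ : (MK ℂ)ˣ) : MK ℂ) f Set.univ)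
    have h3 := phi_units M (((Lu ℂ)⁻¹ : (MK ℂ)ˣ) : MK ℂ) hL f Constr.univ
    rw [← hz] at h3
    rw [hW, map_neg, map_one]
    linear_combination (PowerSeries.C ((M.L - 1) ^ 2) * (1 - PowerSeries.X)) * h2 +
      (PowerSeries.C ((M.L - 1) ^ 2)) * h3
  have hW3 := congrArg (PowerSeries.map E) hW2
  have hLE : E (M.L) = (u : R) := by rw [hML]; rfl
  have hspecW : SpecAt u ε (PowerSeries.map E W) (s + 1)
      ((1 + (-1 * (1 * c1) + -1 * ((1 + -1 * 1) * (1 + -1 * 1) * 1))) / ((s + 1 : ℕ) : ℂ) ^ 2) := by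
    refine specAt_div hεu huE (V := PowerSeries.C ω + (PowerSeries.C (-1) * (PowerSeries.X *
        PowerSeries.map E (zetaG f Set.univ {c | c ≠ 0})) + PowerSeries.C (-1) *
          ((PowerSeries.C 1 + PowerSeries.C (-1) * PowerSeries.X) * (PowerSeries.C 1 +
          PowerSeries.C (-1) * PowerSeries.X) * PowerSeries.C ω))) ?_ (Nat.succ_ne_zero s) ?_
    · simp only [map_mul, map_add, map_pow, map_sub, map_one, map_neg, PowerSeries.map_X,
        PowerSeries.map_C, hLE] at hW3 ⊢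
      exact hW3
    · have e1 : SpecAt u ε (PowerSeries.C (1 : R)) (s + 1) 1 := by
        have := specAt_C (u := u) (ε := ε) (1 : R) (s + 1)
        have h6 : ε (1 : R) = 1 := map_one ε
        rwa [h6] at this
      have e2 : SpecAt u ε (PowerSeries.C (-1 : R)) (s + 1) (-1) := by
        have := specAt_C (u := u) (ε := ε) (-1 : R) (s + 1)
        have h6 : ε (-1 : R) = -1 := by rw [map_neg, map_one]
        rwa [h6] at this
      have e3 : SpecAt u ε (PowerSeries.C ω) (s + 1) 1 := by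
        have := specAt_C (u := u) (ε := ε) ω (s + 1)
        rwa [hεω] at this
      have e4 := specAt_X (u := u) (ε := ε) hεu (s + 1)
      exact specAt_add e3 (specAt_add (specAt_mul e2 (specAt_mul e4 hc1))
        (specAt_mul e2 (specAt_mul (specAt_mul (specAt_add e1 (specAt_mul e2 e4))
          (specAt_add e1 (specAt_mul e2 e4))) e3)))
  have hsum : SpecAt u ε (PowerSeries.C (u : R) * PowerSeries.map E (zetaC f k) +
      PowerSeries.map E W) (s + 1) (1 * ck + (1 + (-1 * (1 * c1) + -1 * ((1 + -1 * 1) *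
        (1 + -1 * 1) * 1))) / ((s + 1 : ℕ) : ℂ) ^ 2) := by
    have e5 := specAt_C (u := u) (ε := ε) (u : R) (s + 1)
    rw [hεu] at e5
    exact specAt_add (specAt_mul e5 hck) hspecW
  refine ⟨_, specAt_resc (V := PowerSeries.C (u : R) * PowerSeries.map E (zetaC f k) +
      PowerSeries.map E W) ?_ hsum, ?_⟩
  · rw [map_rescale, map_add, map_mul, PowerSeries.map_C, hLE] at hrel
    exact hrel
  · have hcc : c1 = c1' + chi0 E ε f := by
      have h5 := val_add (s := ((s + 1 : ℕ) : ℂ)) hv1'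
        (val_al ((s + 1 : ℕ) : ℂ) (Polynomial.C (chi0 E ε f)))
      rw [Polynomial.eval_C] at h5
      have h6 : Val ((s + 1 : ℕ) : ℂ) (Y1 + al (Polynomial.C (chi0 E ε f))) c1 := hv1
      have h7 := val_reg h6
      unfold Val at h5 h6
      exact mul_right_cancel₀ h7 (h6.symm.trans h5)
    have g1 : Val (s : ℂ) (sh 1 Yk) ck := val_sh (by
      have : Val ((s + 1 : ℕ) : ℂ) Yk ck := hvk
      push_cast at this
      exact this)
    have g2 : Val (s : ℂ) (sh 1 Y1) c1' := val_sh (by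
      have : Val ((s + 1 : ℕ) : ℂ) Y1 c1' := hv1'
      push_cast at this
      exact this)
    have g3 := val_add g1 (val_div (r := (Polynomial.X + 1) ^ 2) (by
      simp only [Polynomial.eval_pow, Polynomial.eval_add, Polynomial.eval_X, Polynomial.eval_one]
      exact pow_ne_zero _ hs1) (val_add (val_al (s : ℂ) (Polynomial.C (1 - chi0 E ε f)))
        (val_mul (val_al (s : ℂ) (Polynomial.C (-1))) g2)))
    simp only [Polynomial.eval_pow, Polynomial.eval_add, Polynomial.eval_X, Polynomial.eval_one,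
      Polynomial.eval_C] at g3
    have g4 : ck + (1 - chi0 E ε f + -1 * c1') / ((s : ℂ) + 1) ^ 2 =
        1 * ck + (1 + (-1 * (1 * c1) + -1 * ((1 + -1 * 1) * (1 + -1 * 1) * 1))) /
          ((s + 1 : ℕ) : ℂ) ^ 2 := by
      rw [hcc]
      push_cast
      ring
    rw [g4] at g3
    exact g3

theorem sum_moebius {e : ℕ} (he : 2 ≤ e) :
    ∑ q ∈ e.divisorsAntidiagonal, ((ArithmeticFunction.moebius q.1 : ℤ) : RatFunc ℂ) = 0 := by
  have h1 := congrArg (fun F : ArithmeticFunction (RatFunc ℂ) => F e)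
    (ArithmeticFunction.coe_moebius_mul_coe_zeta (R := RatFunc ℂ))
  simp only [ArithmeticFunction.mul_apply, ArithmeticFunction.intCoe_apply,
    ArithmeticFunction.natCoe_apply, ArithmeticFunction.one_apply_ne (by omega : e ≠ 1)] at h1
  rw [← h1]
  refine Finset.sum_congr rfl fun q hq => ?_
  have h2 : q.2 ≠ 0 := by
    have := Nat.mem_divisorsAntidiagonal.1 hq
    rintro h0
    rw [h0, mul_zero] at this
    exact this.2 this.1.symm
  rw [ArithmeticFunction.zeta_apply_ne h2, Nat.cast_one, mul_one]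

theorem twisted_addyz [IsDomain R] (hε : ε (E ((Lu ℂ : (MK ℂ)ˣ) : MK ℂ)) = 1)
    (hE : E ((Lu ℂ : (MK ℂ)ˣ) : MK ℂ) ≠ 1) {f : MvPolynomial (Fin n) ℂ} {e : ℕ} (he : 2 ≤ e)
    {Z : RatFunc ℂ} (h : IsTwistedTop E ε f e Z) : IsTwistedTop E ε (addyz f) e (sh 1 Z) := by
  obtain ⟨Y, hY, hs⟩ := h
  set D : RatFunc ℂ := (al (Polynomial.C (1 - chi0 E ε f)) +
    al (Polynomial.C (-1)) * sh 1 (Y 1)) / al ((Polynomial.X + 1) ^ 2) with hD
  refine ⟨fun k => sh 1 (Y k) + D, fun k hk => twist_step hε hE f (hY 1 (one_dvd _)) (hY k hk),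
    ?_⟩
  have h1 := congrArg (sh 1) hs
  rw [map_mul, map_natCast, map_sum] at h1
  rw [h1]
  simp only [map_mul, map_intCast, mul_add, Finset.sum_add_distrib]
  rw [← Finset.sum_mul, sum_moebius he, zero_mul, add_zero]

theorem twisted_itr [IsDomain R] (hε : ε (E ((Lu ℂ : (MK ℂ)ˣ) : MK ℂ)) = 1)
    (hE : E ((Lu ℂ : (MK ℂ)ˣ) : MK ℂ) ≠ 1) {f : MvPolynomial (Fin n) ℂ} {e : ℕ} (he : 2 ≤ e)
    {Z : RatFunc ℂ} (h : IsTwistedTop E ε f e Z) :
    ∀ κ : ℕ, IsTwistedTop E ε (itr f κ) e (sh κ Z)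
  | 0 => by
    rw [Nat.cast_zero, sh_zero]
    exact h
  | κ + 1 => by
    have h1 := twisted_addyz hε hE he (twisted_itr hε hE he h κ)
    rw [sh_sh] at h1
    rw [Nat.cast_succ]
    exact h1

theorem zetaC_iso {a b : ℕ} (hab : a = b)
    (Φ : MvPolynomial (Fin a) ℂ ≃ₐ[ℂ] MvPolynomial (Fin b) ℂ) (g : MvPolynomial (Fin a) ℂ)
    (k : ℕ) : zetaC (Φ g) k = zetaC g k := by
  obtain ⟨M, -, -, -, hzc⟩ := exists_measC
  rw [hzc, hzc]
  ext N
  have h5 : b * N = a * N := by rw [hab]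
  rw [zc, zc, PowerSeries.coeff_mk, PowerSeries.coeff_mk, chi_JC_iso, h5]

theorem twisted_iso {a b : ℕ} (hab : a = b)
    (Φ : MvPolynomial (Fin a) ℂ ≃ₐ[ℂ] MvPolynomial (Fin b) ℂ) (g : MvPolynomial (Fin a) ℂ)
    {e : ℕ} {Z : RatFunc ℂ} : IsTwistedTop E ε (Φ g) e Z ↔ IsTwistedTop E ε g e Z := by
  unfold IsTwistedTop
  simp only [zetaC_iso hab Φ g]

end tw

end Pool.Agent.X159.TZ
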