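import Pool.Agent.X159.TZ.Tw

set_option autoImplicit false

/-! # Reduction to cubics for the twisted topological zeta functions -/

namespace Pool.Agent.X159.TZ

open Pool.Agent.TH192.MU

section
open Polynomial

/-- descent for a shift -/
def DescS (κ : ℕ) (P : RatFunc ℂ → ℂ[X] → Prop) : Prop := ∀ (Z : RatFunc ℂ) (c : ℂ[X]),
  (∀ s : ℕ, 0 < s → Reg (s : ℂ) Z) →
  P (sh κ Z) ((X + 1) * c.comp (X + C (κ : ℂ))) → P Z ((X + 1) * c)

/-- constants can be added -/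
def CInv (P : RatFunc ℂ → ℂ[X] → Prop) : Prop := ∀ (Z : RatFunc ℂ) (b : ℂ[X]) (c : ℂ),
  P Z b → P (Z + al (C c)) b

theorem pole_add {Z : RatFunc ℂ} {c s : ℂ} (h : (Z + al (C c)).denom.eval s = 0) :
    Z.denom.eval s = 0 := by
  by_contra h1
  exact reg_iff.1 (reg_add (reg_iff.2 h1) (reg_al s (C c))) h

theorem cinv_roots : CInv PRoots := fun _ _ _ h s hs => h s (pole_add hs)

theorem cinv_weak : CInv PWeak := fun _ _ _ h s hs => h s (pole_add hs)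

theorem cinv_orders : CInv POrders := by
  rintro Z b c ⟨p, hp⟩
  refine ⟨p + b * C c, ?_⟩
  rw [mul_add, hp, map_add, map_mul]

theorem pole_sh {Z : RatFunc ℂ} {κ : ℕ} {s : ℂ} (h : Z.denom.eval s = 0) :
    (sh κ Z).denom.eval (s - κ) = 0 := by
  by_contra h1
  have h2 := reg_sh' (reg_iff.2 h1)
  rw [sub_add_cancel] at h2
  exact reg_iff.1 h2 h

theorem descS_roots {κ : ℕ} (hκ : 2 ≤ κ) : DescS κ PRoots := by
  intro Z c hZ h1 s₀ hs
  have h2 := h1 _ (pole_sh hs)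
  simp only [eval_mul, eval_add, eval_X, eval_one, eval_comp, eval_C, sub_add_cancel] at h2
  rcases mul_eq_zero.1 h2 with h3 | h3
  · exfalso
    have h4 : s₀ = ((κ - 1 : ℕ) : ℂ) := by
      rw [Nat.cast_sub (by omega)]
      push_cast
      linear_combination h3
    rw [h4] at hs
    exact reg_iff.1 (hZ (κ - 1) (by omega)) hs
  · rw [eval_mul, h3, mul_zero]

theorem descS_weak (κ : ℕ) : DescS κ PWeak := by
  intro Z c hZ h1 s₀ hs
  obtain ⟨r, hr, he⟩ := h1 _ (pole_sh hs)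
  rw [exp_eq_iff] at he
  obtain ⟨i, hi⟩ := he
  simp only [eval_mul, eval_add, eval_X, eval_one, eval_comp, eval_C] at hr
  rcases mul_eq_zero.1 hr with h4 | h4
  · refine ⟨-1, by simp, (exp_eq_iff _ _).2 ⟨i + κ, ?_⟩⟩
    push_cast
    linear_combination hi + h4
  · refine ⟨r + κ, ?_, (exp_eq_iff _ _).2 ⟨i, by linear_combination hi⟩⟩
    rw [eval_mul, h4, mul_zero]

theorem descS_orders {κ : ℕ} (hκ : 2 ≤ κ) : DescS κ POrders := by
  rintro Z c hZ ⟨p, hp⟩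
  have h3 := congrArg (sh (-κ)) hp
  rw [map_mul, sh_poly, sh_poly, sh_sh, add_neg_cancel, sh_zero] at h3
  have h4 : ((X + 1) * c.comp (X + C (κ : ℂ))).comp (X + C (-(κ : ℂ))) =
      (X - C (((κ - 1 : ℕ)) : ℂ)) * c := by
    have h5 : (c.comp (X + C (κ : ℂ))).comp (X + C (-(κ : ℂ))) = c := by
      rw [comp_assoc, add_comp, X_comp, C_comp, add_assoc, ← C_add, neg_add_cancel, C_0, add_zero,
        comp_X]
    rw [mul_comp, h5, add_comp, X_comp, one_comp, Nat.cast_sub (by omega : 1 ≤ κ), Nat.cast_one,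
      C_sub, C_neg, C_1]
    ring
  rw [h4] at h3
  set W := al c * Z with hW
  have h5 : W * al (X - C (((κ - 1 : ℕ)) : ℂ)) = al (p.comp (X + C (-(κ : ℂ)))) := by
    rw [← h3, hW, map_mul al (X - C (((κ - 1 : ℕ)) : ℂ))]
    ring
  have h6 : W.denom ∣ (X - C (((κ - 1 : ℕ)) : ℂ) : ℂ[X]) := denom_dvd (X_sub_C_ne_zero _) h5
  have h7 : W.denom.eval (((κ - 1 : ℕ)) : ℂ) ≠ 0 :=
    reg_iff.1 (reg_mul (reg_al _ _) (hZ (κ - 1) (by omega)))
  have h8 : W.denom = 1 := by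
    obtain ⟨r, hr⟩ := h6
    rcases (Polynomial.irreducible_X_sub_C (((κ - 1 : ℕ)) : ℂ)).isUnit_or_isUnit hr with hu | hu
    · exact (RatFunc.monic_denom W).eq_one_of_isUnit hu
    · exfalso
      have h9 := congrArg (Polynomial.eval (((κ - 1 : ℕ)) : ℂ)) hr
      rw [eval_mul, eval_sub, eval_X, eval_C, sub_self] at h9
      have h10 : r.eval (((κ - 1 : ℕ)) : ℂ) ≠ 0 := by
        obtain ⟨a, ha, rfl⟩ := Polynomial.isUnit_iff.1 hu
        rw [eval_C]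
        exact ha.ne_zero
      exact (mul_ne_zero h7 h10) h9.symm
  refine ⟨(X + 1) * W.num, ?_⟩
  have h9 := num_denom W
  rw [h8, map_one, mul_one] at h9
  have h10 : al ((X + 1) * c) * Z = al (X + 1) * W := by
    rw [map_mul, hW]
    ring
  rw [map_mul al (X + 1) W.num, ← h9]
  exact h10

end

open MvPolynomial Pool.Agent.W428.MOT Pool.Agent.H628R4.TP
open Pool.Agent.TH192.MT (zetaM)
open Pool.Agent.W375.MG (zetaG)
open Pool.Agent.Y229.MS (itr)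
open Pool.Agent.X271.RD (cubic stab)

variable {R : Type} [CommRing R] {E : MK ℂ →+* R} {ε : R →+* ℂ} {n : ℕ}

theorem twP_iso {P : RatFunc ℂ → Polynomial ℂ → Prop} {e : ℕ} {a b : ℕ} (hab : a = b)
    (Φ : MvPolynomial (Fin a) ℂ ≃ₐ[ℂ] MvPolynomial (Fin b) ℂ) {g : MvPolynomial (Fin a) ℂ}
    (h : TwP E ε e P (Φ g)) : TwP E ε e P g := fun Z hZ c hc =>
  h Z ((twisted_iso hab Φ g).2 hZ) c (Pool.Agent.W206.CU.isBFunction_iso Φ hc)

theorem twisted_stab [IsDomain R] (hε : ε (E ((Lu ℂ : (MK ℂ)ˣ) : MK ℂ)) = 1)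
    (hE : E ((Lu ℂ : (MK ℂ)ˣ) : MK ℂ) ≠ 1) {f : MvPolynomial (Fin n) ℂ} {e : ℕ} (he : 2 ≤ e)
    {Z : RatFunc ℂ} (h : IsTwistedTop E ε f e Z) (κ : ℕ)
    (Φ : MvPolynomial (Fin (n + (κ + κ))) ℂ ≃ₐ[ℂ] MvPolynomial (Fin (n + (κ + κ))) ℂ) :
    IsTwistedTop E ε (Φ (stab f κ)) e (sh κ Z) := by
  obtain ⟨ψ, hψ⟩ := Pool.Agent.Y405.MS.itr ℂ f κ
  have h1 : stab f κ = ψ (itr f κ) := by
    rw [hψ]
    rfl
  rw [twisted_iso rfl Φ, h1, twisted_iso (by ring) ψ]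
  exact twisted_itr hε hE he h κ

theorem twisted_one_iff {f : MvPolynomial (Fin n) ℂ} {Z : RatFunc ℂ} :
    IsTwistedTop E ε f 1 Z ↔ IsTopZeta E ε (zetaC f 1) Z := by
  constructor
  · rintro ⟨Y, hY, hs⟩
    rw [Nat.totient_one, Nat.cast_one, one_mul] at hs
    simp only [Nat.divisorsAntidiagonal_one, Finset.sum_singleton,
      ArithmeticFunction.moebius_apply_one, Int.cast_one, one_mul] at hs
    rw [hs]
    exact hY 1 (one_dvd _)
  · intro h
    refine ⟨fun _ => Z, fun k hk => ?_, ?_⟩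
    · obtain rfl := Nat.dvd_one.1 hk
      exact h
    · rw [Nat.totient_one, Nat.cast_one, one_mul]
      simp only [Nat.divisorsAntidiagonal_one, Finset.sum_singleton,
        ArithmeticFunction.moebius_apply_one, Int.cast_one, one_mul]

theorem twisted_reg {f : MvPolynomial (Fin n) ℂ} {e : ℕ} (he : 1 ≤ e) {Z : RatFunc ℂ}
    (h : IsTwistedTop E ε f e Z) : ∀ s : ℕ, 0 < s → Reg (s : ℂ) Z := by
  intro s hs
  obtain ⟨Y, hY, hsum⟩ := h
  have h1 : (Nat.totient e : RatFunc ℂ) * Z = al (Polynomial.C (Nat.totient e : ℂ)) * Z := by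
    rw [Polynomial.C_eq_natCast, map_natCast]
  have h2 : Reg (s : ℂ) (al (Polynomial.C (Nat.totient e : ℂ)) * Z) := by
    rw [← h1, hsum]
    have h3 : ∀ S : Finset (ℕ × ℕ), (∀ q ∈ S, q.2 ∣ e) → Reg (s : ℂ)
        (∑ q ∈ S, ((ArithmeticFunction.moebius q.1 : ℤ) : RatFunc ℂ) * Y q.2) := by
      intro S
      induction S using Finset.induction_on with
      | empty =>
        intro _
        rw [Finset.sum_empty]
        have := reg_al (s : ℂ) 0
        rwa [map_zero] at this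
      | insert q S hq ih =>
        intro hS
        rw [Finset.sum_insert hq]
        refine reg_add (reg_mul ?_ (reg_of_top (hY q.2 (hS q (Finset.mem_insert_self _ _))) s hs))
          (ih fun q' hq' => hS q' (Finset.mem_insert_of_mem hq'))
        have := reg_al (s : ℂ) ((ArithmeticFunction.moebius q.1 : ℤ) : Polynomial ℂ)
        rwa [map_intCast] at this
    refine h3 _ fun q hq => ?_
    exact Dvd.intro_left _ (Nat.mem_divisorsAntidiagonal.1 hq).1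
  refine reg_div ?_ h2
  rw [Polynomial.eval_C]
  exact_mod_cast (Nat.totient_pos.2 (by omega)).ne'

/-- **Transfer**, `e ≥ 2`. -/
theorem transferTw [IsDomain R] (hε : ε (E ((Lu ℂ : (MK ℂ)ˣ) : MK ℂ)) = 1)
    (hE : E ((Lu ℂ : (MK ℂ)ˣ) : MK ℂ) ≠ 1) {P : RatFunc ℂ → Polynomial ℂ → Prop} {κ : ℕ}
    (hP : DescS κ P) (hP1 : Desc κ P) (hP2 : CInv P) {e : ℕ} (he : 1 ≤ e)
    {f : MvPolynomial (Fin n) ℂ} (hf : f.totalDegree ≠ 0)
    (Φ : MvPolynomial (Fin (n + (κ + κ))) ℂ ≃ₐ[ℂ] MvPolynomial (Fin (n + (κ + κ))) ℂ)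
    (h : TwP E ε e P (Φ (stab f κ))) : TwP E ε e P f := by
  intro Z hZ b hb
  obtain ⟨h1, h2⟩ := Pool.Agent.Y229.PG.becomes_global (k := κ) (G := Φ (stab f κ)) hf hb ⟨Φ, rfl⟩
  obtain ⟨c, hc⟩ : (Polynomial.X + 1 : Polynomial ℂ) ∣ b := by
    have := Polynomial.dvd_iff_isRoot.2 h1
    simpa using this
  rw [hc]
  rcases Nat.lt_or_ge 1 e with he2 | he2
  · exact hP Z c (twisted_reg he hZ) (h _ (twisted_stab hε hE he2 hZ κ Φ) _ (h2 c hc))
  · obtain rfl : e = 1 := by omega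
    rw [twisted_one_iff] at hZ
    have h3 := top_of_twist hZ
    have h4 := top_stab hε hE (by rw [zetaM_eq]; exact h3) κ Φ
    rw [zetaM_eq] at h4
    have h5 := h _ (twisted_one_iff.2 (twist_of_top h4)) _ (h2 c hc)
    have h6 := hP2 _ _ (chi0 E ε (Φ (stab f κ))) h5
    rw [add_assoc, ← map_add, ← Polynomial.C_add, neg_add_cancel, Polynomial.C_0, map_zero,
      add_zero] at h6
    have h7 := hP2 _ _ (-chi0 E ε f) (hP1 _ c (reg_of_top h3) h6)
    rw [add_assoc, ← map_add, ← Polynomial.C_add, add_neg_cancel, Polynomial.C_0, map_zero,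
      add_zero] at h7
    exact h7

/-- **Reduction to cubics.** -/
theorem cubicsTw [IsDomain R] (hε : ε (E ((Lu ℂ : (MK ℂ)ˣ) : MK ℂ)) = 1)
    (hE : E ((Lu ℂ : (MK ℂ)ˣ) : MK ℂ) ≠ 1) {P : RatFunc ℂ → Polynomial ℂ → Prop}
    (hP : ∀ κ, 2 ≤ κ → DescS κ P ∧ Desc κ P) (hP2 : CInv P) {e : ℕ} (he : 1 ≤ e) (k : Type)
    [Field k] [Algebra k ℂ] :
    (∀ (n : ℕ) (f : MvPolynomial (Fin n) k), f.totalDegree ≠ 0 →
      TwP E ε e P (map (algebraMap k ℂ) f)) ↔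
    ∀ (n l : ℕ) (q : Fin l → MvPolynomial (Fin (n + 1)) k), (∀ j, (q j).totalDegree ≤ 2) →
      TwP E ε e P (map (algebraMap k ℂ) (cubic q)) := by
  refine ⟨fun h n l q _ => h _ _ (Pool.Agent.X271.RC.cubic_deg q), fun h n f hf => ?_⟩
  obtain ⟨m, hm, -, n2, l2, q2, hq2, hn2, Φ2, hΦ2⟩ := Pool.Agent.X271.RC.universal f
  obtain ⟨ψ2, hψ2⟩ := Pool.Agent.Y405.MS.bc k ℂ Φ2
  have h1 : TwP E ε e P (itr (map (algebraMap k ℂ) f) (m + 1)) := twP_iso hn2 ψ2 (by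
    rw [← map_itr, hψ2, hΦ2]
    exact h _ _ _ hq2)
  obtain ⟨ψ, hψ⟩ := Pool.Agent.Y405.MS.itr ℂ (map (algebraMap k ℂ) f) (m + 1)
  have h2 : TwP E ε e P (stab (map (algebraMap k ℂ) f) (m + 1)) := twP_iso (by ring) ψ.symm (by
    have h3 : ψ.symm (stab (map (algebraMap k ℂ) f) (m + 1)) =
        itr (map (algebraMap k ℂ) f) (m + 1) := by
      rw [AlgEquiv.symm_apply_eq, hψ]
      rfl
    rwa [h3])
  obtain ⟨hd1, hd2⟩ := hP (m + 1) (by omega)
  exact transferTw hε hE hd1 hd2 hP2 he (Pool.Agent.X271.RC.deg_map hf) AlgEquiv.refl h2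

end Pool.Agent.X159.TZ
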